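import Mathlib

/-!
Blocking partitions of graphs without a complete minor: basic notions.
-/

open Classical

namespace Pool.Agent.Work.MP_d68d6d_co_helper67

universe u

variable {V : Type u}

/-- `K_t` is a minor of `G`: there are `t` pairwise disjoint connected branch sets which are
pairwise joined by an edge. -/
def HasCompleteMinor (G : SimpleGraph V) (t : ℕ) : Prop :=
  ∃ B : Fin t → Set V, (∀ i, (G.induce (B i)).Connected) ∧
    (∀ i j, i ≠ j → Disjoint (B i) (B j)) ∧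
    (∀ i j, i ≠ j → ∃ x ∈ B i, ∃ y ∈ B j, G.Adj x y)

/-- restriction of a graph to a vertex set, on the same vertex type. -/
def res (G : SimpleGraph V) (S : Set V) : SimpleGraph V where
  Adj a b := G.Adj a b ∧ a ∈ S ∧ b ∈ S
  symm := ⟨fun _ _ h => ⟨h.1.symm, h.2.2, h.2.1⟩⟩
  loopless := ⟨fun _ h => G.loopless.irrefl _ h.1⟩

theorem res_adj {G : SimpleGraph V} {S : Set V} {a b : V} :
    (res G S).Adj a b ↔ G.Adj a b ∧ a ∈ S ∧ b ∈ S := Iff.rfl

theorem res_mono {G : SimpleGraph V} {S S' : Set V} (h : S ⊆ S') : res G S ≤ res G S' :=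
  fun _ _ hab => ⟨hab.1, h hab.2.1, h hab.2.2⟩

/-- the component of `u` in `U`. -/
def cmp (G : SimpleGraph V) (U : Set V) (u : V) : Set V := {x | (res G U).Reachable u x}

theorem self_mem_cmp {G : SimpleGraph V} {U : Set V} {u : V} : u ∈ cmp G U u :=
  SimpleGraph.Reachable.refl u

theorem reach_closed {G : SimpleGraph V} {U C : Set V} {u x : V} (h : (res G U).Reachable u x)
    (hu : u ∈ C) (hC : ∀ y ∈ C, ∀ z, z ∉ C → G.Adj y z → z ∉ U) : x ∈ C := by
  obtain ⟨w⟩ := h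
  induction w with
  | nil => exact hu
  | cons hadj _ ih =>
    apply ih
    by_contra hcon
    exact hC _ hu _ hcon hadj.1 hadj.2.2

theorem cmp_sub_closed {G : SimpleGraph V} {U C : Set V} {u : V} (hu : u ∈ C)
    (hC : ∀ y ∈ C, ∀ z, z ∉ C → G.Adj y z → z ∉ U) : cmp G U u ⊆ C :=
  fun _ hx => reach_closed hx hu hC

theorem cmp_sub {G : SimpleGraph V} {U : Set V} {u : V} (hu : u ∈ U) : cmp G U u ⊆ U :=
  cmp_sub_closed hu (fun _ _ _ hz _ => hz)

theorem cmp_step {G : SimpleGraph V} {U : Set V} {u x z : V} (hu : u ∈ U) (hx : x ∈ cmp G U u)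
    (h : G.Adj x z) (hz : z ∈ U) : z ∈ cmp G U u := by
  have hxU := cmp_sub hu hx
  exact SimpleGraph.Reachable.trans hx (SimpleGraph.Adj.reachable (res_adj.2 ⟨h, hxU, hz⟩))

theorem cmp_closed {G : SimpleGraph V} {U : Set V} {u : V} (hu : u ∈ U) :
    ∀ y ∈ cmp G U u, ∀ z, z ∉ cmp G U u → G.Adj y z → z ∉ U :=
  fun _ hy _ hz hadj hzU => hz (cmp_step hu hy hadj hzU)

theorem cmp_mono {G : SimpleGraph V} {U U' : Set V} (h : U' ⊆ U) {u : V} :
    cmp G U' u ⊆ cmp G U u :=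
  fun _ hx => SimpleGraph.Reachable.mono (res_mono h) hx

theorem cmp_eq {G : SimpleGraph V} {U : Set V} {u x : V} (h : x ∈ cmp G U u) :
    cmp G U x = cmp G U u := by
  ext y
  constructor
  · intro hy
    exact SimpleGraph.Reachable.trans h hy
  · intro hy
    exact SimpleGraph.Reachable.trans (SimpleGraph.Reachable.symm h) hy

theorem mem_cmp_symm {G : SimpleGraph V} {U : Set V} {u x : V} (h : x ∈ cmp G U u) :
    u ∈ cmp G U x := SimpleGraph.Reachable.symm h

/-- there is a walk of length at most `n` from the first to the second vertex all whose vertices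
after the first one lie in `D`. -/
inductive Rch (G : SimpleGraph V) (D : Set V) : ℕ → V → V → Prop
  | refl (n : ℕ) (u : V) : Rch G D n u u
  | step {n : ℕ} {u v x : V} : G.Adj u v → v ∈ D → Rch G D n v x → Rch G D (n + 1) u x

theorem Rch.mono {G : SimpleGraph V} {D D' : Set V} (h : D ⊆ D') {n : ℕ} {u x : V}
    (hr : Rch G D n u x) : Rch G D' n u x := by
  induction hr with
  | refl n u => exact Rch.refl n u
  | step hadj hv _ ih => exact Rch.step hadj (h hv) ih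

theorem Rch.zero {G : SimpleGraph V} {D : Set V} {u x : V} (hr : Rch G D 0 u x) : x = u := by
  cases hr with
  | refl => rfl

theorem Rch.succ {G : SimpleGraph V} {D : Set V} {n : ℕ} {u x : V} (hr : Rch G D n u x) :
    Rch G D (n + 1) u x := by
  induction hr with
  | refl n u => exact Rch.refl _ u
  | step hadj hv _ ih => exact Rch.step hadj hv ih

theorem Rch.le {G : SimpleGraph V} {D : Set V} {n m : ℕ} (hnm : n ≤ m) {u x : V}
    (hr : Rch G D n u x) : Rch G D m u x := by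
  induction hnm with
  | refl => exact hr
  | step _ ih => exact ih.succ

/-- reachability inside `S` gives connectivity of the induced graph. -/
theorem induce_connected {G : SimpleGraph V} {S : Set V} {r : V} (hr : r ∈ S)
    (h : ∀ v ∈ S, (res G S).Reachable v r) : (G.induce S).Connected := by
  have key : ∀ v w : V, (res G S).Reachable v w → ∀ (hv : v ∈ S) (hw : w ∈ S),
      (G.induce S).Reachable ⟨v, hv⟩ ⟨w, hw⟩ := by
    intro v w hvw
    obtain ⟨p⟩ := hvw
    induction p with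
    | nil => intro hv hw; exact SimpleGraph.Reachable.refl _
    | cons hadj _ ih =>
      intro hv hw
      refine SimpleGraph.Reachable.trans ?_ (ih hadj.2.2 hw)
      apply SimpleGraph.Adj.reachable
      exact hadj.1
  haveI : Nonempty S := ⟨⟨r, hr⟩⟩
  refine SimpleGraph.Connected.mk ?_
  intro a b
  exact (key a r (h a a.2) a.2 hr).trans (key b r (h b b.2) b.2 hr).symm

/-- the data of a partially built decomposition. -/
structure Data (V : Type u) where
  /-- vertices which are not assigned yet -/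
  U : Set V
  /-- index of the supernode of an assigned vertex -/
  s : V → ℕ
  /-- number of supernodes -/
  N : ℕ
  /-- region in which a supernode was created -/
  H : ℕ → Set V
  /-- older supernodes adjacent to the region -/
  A : ℕ → Finset ℕ
  /-- skeleton vertices -/
  T : Set V
  /-- pointer towards the root -/
  par : V → V
  /-- distance to the skeleton along the pointers -/
  h : V → ℕ
  /-- depth in the region of a supernode -/
  dep : ℕ → V → ℕ
  /-- root of the supernode -/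
  root : ℕ → V
  /-- number of peeled layers -/
  cnt : V → ℕ → ℕ

/-- supernode `i` touches the component of `x` among the unassigned vertices. -/
def nb (G : SimpleGraph V) (D : Data V) (x : V) (i : ℕ) : Prop :=
  ∃ y ∈ cmp G D.U x, ∃ z, z ∉ D.U ∧ G.Adj y z ∧ D.s z = i

/-- domain of a supernode. -/
def dom (D : Data V) (l : ℕ) : Set V := {v | v ∈ D.H l ∧ (v ∈ D.U ∨ l ≤ D.s v)}

/-- a region which supernode `l` can never enter. -/
def Sealed (G : SimpleGraph V) (D : Data V) (l : ℕ) (C : Set V) : Prop :=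
  (∀ x ∈ C, ∀ z, z ∉ C → G.Adj x z → z ∉ D.U ∧ D.s z ≠ l) ∧ (∀ x ∈ C, x ∉ D.U → D.s x ≠ l)

/-- the invariants. -/
structure Inv (G : SimpleGraph V) (k m M : ℕ) (D : Data V) : Prop where
  i1 : ∀ v, v ∉ D.U → D.s v < D.N ∧ v ∈ D.H (D.s v)
  i2 : ∀ i, i < D.N → ∀ x ∈ D.H i, ∀ z, z ∉ D.H i → G.Adj x z → z ∉ D.U ∧ D.s z ∈ D.A i
  i3 : ∀ i, i < D.N → ∀ l ∈ D.A i, l < i
  i4 : ∀ i, i < D.N → ∀ v ∈ D.H i, v ∉ D.U → D.s v < i → D.s v ∈ D.A i
  i7a : ∀ v ∈ D.T, v ∉ D.U
  i7b : ∀ v ∈ D.T, D.dep (D.s v) v ≠ 0 → D.par v ∈ D.T ∧ D.s (D.par v) = D.s v ∧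
    G.Adj v (D.par v) ∧ D.dep (D.s v) (D.par v) + 1 = D.dep (D.s v) v
  i7c : ∀ v ∈ D.T, D.dep (D.s v) v = 0 → v = D.root (D.s v)
  i7d : ∀ i, i < D.N → ∀ d, {v | v ∈ D.T ∧ D.s v = i ∧ D.dep i v = d}.ncard ≤ M
  i7e : ∀ i, i < D.N → D.root i ∈ D.T ∧ D.s (D.root i) = i
  i8 : ∀ i, i < D.N → ∀ x ∈ D.H i, ∀ y ∈ D.H i, G.Adj x y → D.dep i x ≤ D.dep i y + 1
  i9 : ∀ v, v ∉ D.U → v ∉ D.T → D.par v ∉ D.U ∧ D.s (D.par v) = D.s v ∧
    G.Adj v (D.par v) ∧ D.h (D.par v) + 1 = D.h v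
  i10 : ∀ x ∈ D.U, ∀ z, z ∉ D.U → G.Adj x z → D.h z ≤ ∑ l ∈ D.A (D.s z), D.cnt x l
  i11 : ∀ v, v ∉ D.U → D.h v ≤ m * k
  i12a : ∀ x ∈ D.U, ∀ l, D.cnt x l ≤ k
  i12b : ∀ x ∈ D.U, ∀ y ∈ D.U, G.Adj x y → D.cnt x = D.cnt y
  i12c : ∀ x ∈ D.U, ∀ l, nb G D x l → D.cnt x l = 0
  i13 : ∀ x ∈ D.U, ∀ l i, x ∈ D.H l → ¬ nb G D x l → D.cnt x l < k → l < i → nb G D x i →
    l ∈ D.A i
  i14 : ∀ x ∈ D.U, ∀ l, l < D.N → x ∈ D.H l → ¬ nb G D x l → ∃ C, Sealed G D l C ∧
    ∀ y ∈ cmp G D.U x, ∀ z, Rch G (dom D l) (D.cnt x l) y z → z ∈ C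
  i15 : ∀ v, v ∉ D.U → ∀ l, l < D.s v → v ∈ D.H l → l ∉ D.A (D.s v) → ∃ C, Sealed G D l C ∧
    ∀ z, Rch G (dom D l) k v z → z ∈ C
  i17 : ∀ j, j < D.N → ∀ l ∈ D.A j, ∃ x ∈ D.T, D.s x = j ∧ ∃ z, z ∉ D.U ∧ D.s z = l ∧ G.Adj x z
  i18 : ∀ i, i < D.N → (D.A i).card ≤ m

variable {G : SimpleGraph V} {k m M : ℕ} {D : Data V}

theorem nb_lt (hI : Inv G k m M D) {x : V} {i : ℕ} (h : nb G D x i) : i < D.N := by
  obtain ⟨y, _, z, hz, _, rfl⟩ := h
  exact (hI.i1 z hz).1

theorem nb_congr {x y : V} (h : y ∈ cmp G D.U x) (i : ℕ) : nb G D y i ↔ nb G D x i := by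
  unfold nb
  rw [cmp_eq h]

/-- closed regions contain whole components. -/
theorem cmp_sub_H (hI : Inv G k m M D) {x : V} {i : ℕ} (hi : i < D.N) (hx : x ∈ D.H i) :
    cmp G D.U x ⊆ D.H i :=
  cmp_sub_closed hx (fun y hy z hz hadj => (hI.i2 i hi y hy z hz hadj).1)

theorem nb_region (hI : Inv G k m M D) {x : V} (hx : x ∈ D.U) {i : ℕ} (h : nb G D x i) :
    cmp G D.U x ⊆ D.H i := by
  have hi := nb_lt hI h
  obtain ⟨y, hy, z, hz, hadj, rfl⟩ := h
  have hzH := (hI.i1 z hz).2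
  have hyU := cmp_sub hx hy
  have hyH : y ∈ D.H (D.s z) := by
    by_contra hcon
    exact (hI.i2 _ hi z hzH y hcon hadj.symm).1 hyU
  have := cmp_sub_H hI hi hyH
  rw [cmp_eq hy] at this
  exact this

/-- an older supernode touching a component inside the region of `i` belongs to `A i`. -/
theorem nb_mem_A (hI : Inv G k m M D) {x : V} (hx : x ∈ D.U) {l i : ℕ} (hl : nb G D x l)
    (hi : nb G D x i) (hli : l < i) : l ∈ D.A i := by
  have hsub := nb_region hI hx hi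
  have hiN := nb_lt hI hi
  obtain ⟨y, hy, z, hz, hadj, rfl⟩ := hl
  by_cases hzH : z ∈ D.H i
  · exact hI.i4 i hiN z hzH hz hli
  · exact (hI.i2 i hiN y (hsub hy) z hzH hadj).2

theorem cnt_const (hI : Inv G k m M D) {x y : V} (hx : x ∈ D.U) (hy : y ∈ cmp G D.U x) :
    D.cnt y = D.cnt x := by
  have : (res G D.U).Reachable x y := hy
  obtain ⟨w⟩ := this
  clear hy
  induction w with
  | nil => rfl
  | cons hadj _ ih =>
    rw [ih hadj.2.2]
    exact (hI.i12b _ hx _ hadj.2.2 hadj.1).symm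

/-- a component which supernode `l` does not touch is sealed for `l`. -/
theorem sealed_cmp {x : V} (hx : x ∈ D.U) {l : ℕ} (h : ¬ nb G D x l) :
    Sealed G D l (cmp G D.U x) := by
  refine ⟨?_, ?_⟩
  · intro y hy z hz hadj
    have hzU := cmp_closed hx y hy z hz hadj
    refine ⟨hzU, fun hs => h ⟨y, hy, z, hzU, hadj, hs⟩⟩
  · intro y hy hyU
    exact absurd (cmp_sub hx hy) hyU

theorem i14_zero {x : V} (hx : x ∈ D.U) {l c : ℕ} (h : ¬ nb G D x l) (hc : c = 0) :
    ∃ C, Sealed G D l C ∧ ∀ y ∈ cmp G D.U x, ∀ z, Rch G (dom D l) c y z → z ∈ C := by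
  subst hc
  refine ⟨cmp G D.U x, sealed_cmp hx h, ?_⟩
  intro y hy z hz
  rw [hz.zero]
  exact hy

end Pool.Agent.Work.MP_d68d6d_co_helper67
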