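import Pool.Agent.Work.MP_d68d6d_co_helper67.Basic

/-!
The peeling step: one layer of a component is given to the younger supernodes.
-/

open Classical

namespace Pool.Agent.Work.MP_d68d6d_co_helper67

universe u

variable {V : Type u} {G : SimpleGraph V} {k m M : ℕ} {D : Data V}

/-- the peeled data. -/
noncomputable def peel (D : Data V) (Hc W : Set V) (p : V → V) (l0 : ℕ) : Data V where
  U := D.U \ W
  s := fun v => if v ∈ W then D.s (p v) else D.s v
  N := D.N
  H := D.H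
  A := D.A
  T := D.T
  par := fun v => if v ∈ W then p v else D.par v
  h := fun v => if v ∈ W then D.h (p v) + 1 else D.h v
  dep := D.dep
  root := D.root
  cnt := fun v l => if v ∈ Hc ∧ l = l0 then D.cnt v l + 1 else D.cnt v l

theorem peel_inv (hI : Inv G k m M D) {x0 : V} (hx0 : x0 ∈ D.U) {l0 : ℕ} (hl0 : l0 < D.N)
    (hxH : x0 ∈ D.H l0) (hnb : ¬ nb G D x0 l0) (hcnt : D.cnt x0 l0 < k) (W : Set V) (p : V → V)
    (hW : ∀ v, v ∈ W ↔ v ∈ cmp G D.U x0 ∧ ∃ z, z ∉ D.U ∧ G.Adj v z ∧ l0 < D.s z)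
    (hp : ∀ v ∈ W, p v ∉ D.U ∧ G.Adj v (p v) ∧ l0 < D.s (p v)) :
    Inv G k m M (peel D (cmp G D.U x0) W p l0) := by
  set Hc := cmp G D.U x0 with hHc
  set D' := peel D Hc W p l0 with hD'
  have hWU : ∀ v ∈ W, v ∈ D.U := fun v hv => cmp_sub hx0 ((hW v).1 hv).1
  have hWc : ∀ v ∈ W, v ∈ Hc := fun v hv => ((hW v).1 hv).1
  have hUW : ∀ v, v ∉ D.U → v ∉ W := fun v hv hvW => hv (hWU v hvW)
  have hTW : ∀ v ∈ D.T, v ∉ W := fun v hv => hUW v (hI.i7a v hv)
  have hU' : ∀ v, v ∈ D'.U ↔ v ∈ D.U ∧ v ∉ W := fun v => Iff.rfl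
  have hU'sub : D'.U ⊆ D.U := fun v hv => hv.1
  have hnU' : ∀ v, v ∉ D.U → v ∉ D'.U := fun v hv h => hv h.1
  have hs1 : ∀ v ∈ W, D'.s v = D.s (p v) := fun v hv => if_pos hv
  have hs2 : ∀ v, v ∉ W → D'.s v = D.s v := fun v hv => if_neg hv
  have hp1 : ∀ v ∈ W, D'.par v = p v := fun v hv => if_pos hv
  have hp2 : ∀ v, v ∉ W → D'.par v = D.par v := fun v hv => if_neg hv
  have hh1 : ∀ v ∈ W, D'.h v = D.h (p v) + 1 := fun v hv => if_pos hv
  have hh2 : ∀ v, v ∉ W → D'.h v = D.h v := fun v hv => if_neg hv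
  have hcase : ∀ v, v ∉ D'.U → v ∉ D.U ∨ v ∈ W := by
    intro v hv
    by_contra hcon
    push Not at hcon
    exact hv ⟨hcon.1, hcon.2⟩
  have hc1 : ∀ v, v ∈ Hc → D'.cnt v l0 = D.cnt v l0 + 1 := fun v hv => if_pos ⟨hv, rfl⟩
  have hc2 : ∀ v l, ¬ (v ∈ Hc ∧ l = l0) → D'.cnt v l = D.cnt v l := fun v l hv => if_neg hv
  have hcmono : ∀ v l, D.cnt v l ≤ D'.cnt v l := by
    intro v l
    by_cases h : v ∈ Hc ∧ l = l0
    · rw [h.2, hc1 v h.1]; omega
    · rw [hc2 v l h]
  have hcc : ∀ v ∈ Hc, D.cnt v = D.cnt x0 := fun v hv => cnt_const hI hx0 hv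
  have hcmp : ∀ v, cmp G D'.U v ⊆ cmp G D.U v := fun v => cmp_mono hU'sub
  have hnbc : ∀ v ∈ Hc, ∀ i, nb G D v i ↔ nb G D x0 i := fun v hv i => nb_congr hv i
  -- F3
  have F3 : ∀ x ∈ D'.U, ∀ i, nb G D' x i → nb G D x i := by
    intro x hx i hn
    obtain ⟨y, hy, z, hz, hadj, hs⟩ := hn
    have hyc := hcmp x hy
    rcases hcase z hz with hzU | hzW
    · rw [hs2 z (hUW z hzU)] at hs
      exact ⟨y, hyc, z, hzU, hadj, hs⟩
    · rw [hs1 z hzW] at hs
      have hzc := cmp_step (hU'sub hx) hyc hadj (hWU z hzW)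
      exact ⟨z, hzc, p z, (hp z hzW).1, (hp z hzW).2.1, hs⟩
  -- F4
  have F4 : ∀ l C, Sealed G D l C → Sealed G D' l C := by
    intro l C hC
    refine ⟨?_, ?_⟩
    · intro x hx z hz hadj
      obtain ⟨h1, h2⟩ := hC.1 x hx z hz hadj
      refine ⟨hnU' z h1, ?_⟩
      rw [hs2 z (hUW z h1)]
      exact h2
    · intro x hx hxU
      rcases hcase x hxU with h | h
      · rw [hs2 x (hUW x h)]
        exact hC.2 x hx h
      · rw [hs1 x h]
        by_cases hpc : p x ∈ C
        · exact hC.2 _ hpc (hp x h).1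
        · exact (hC.1 x hx _ hpc (hp x h).2.1).2
  -- F5
  have F5 : ∀ l, dom D' l ⊆ dom D l := by
    intro l v hv
    refine ⟨hv.1, ?_⟩
    rcases hv.2 with h | h
    · exact Or.inl (hU'sub h)
    · by_cases hvW : v ∈ W
      · exact Or.inl (hWU v hvW)
      · rw [hs2 v hvW] at h
        exact Or.inr h
  refine
    { i1 := ?_, i2 := ?_, i3 := hI.i3, i4 := ?_, i7a := ?_, i7b := ?_, i7c := ?_, i7d := ?_,
      i7e := ?_, i8 := hI.i8, i9 := ?_, i10 := ?_, i11 := ?_, i12a := ?_, i12b := ?_,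
      i12c := ?_, i13 := ?_, i14 := ?_, i15 := ?_, i17 := ?_, i18 := hI.i18 }
  · -- i1
    intro v hv
    rcases hcase v hv with h | h
    · rw [hs2 v (hUW v h)]
      exact hI.i1 v h
    · rw [hs1 v h]
      obtain ⟨h1, h2, h3⟩ := hp v h
      obtain ⟨h4, h5⟩ := hI.i1 (p v) h1
      refine ⟨h4, ?_⟩
      by_contra hcon
      exact (hI.i2 _ h4 (p v) h5 v hcon h2.symm).1 (hWU v h)
  · -- i2
    intro i hi x hx z hz hadj
    obtain ⟨h1, h2⟩ := hI.i2 i hi x hx z hz hadj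
    refine ⟨hnU' z h1, ?_⟩
    rw [hs2 z (hUW z h1)]
    exact h2
  · -- i4
    intro i hi v hv hvU hlt
    rcases hcase v hvU with h | h
    · rw [hs2 v (hUW v h)] at hlt ⊢
      exact hI.i4 i hi v hv h hlt
    · rw [hs1 v h] at hlt ⊢
      obtain ⟨h1, h2, h3⟩ := hp v h
      by_cases hpH : p v ∈ D.H i
      · exact hI.i4 i hi (p v) hpH h1 hlt
      · exact (hI.i2 i hi v hv (p v) hpH h2).2
  · -- i7a
    intro v hv
    exact hnU' v (hI.i7a v hv)
  · -- i7b
    intro v hv hd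
    have hvW := hTW v hv
    rw [hs2 v hvW] at hd
    obtain ⟨h1, h2, h3, h4⟩ := hI.i7b v hv hd
    rw [hs2 v hvW, hp2 v hvW, hs2 _ (hTW _ h1)]
    exact ⟨h1, h2, h3, h4⟩
  · -- i7c
    intro v hv hd
    rw [hs2 v (hTW v hv)] at hd ⊢
    exact hI.i7c v hv hd
  · -- i7d
    intro i hi d
    have : {v | v ∈ D'.T ∧ D'.s v = i ∧ D'.dep i v = d} = {v | v ∈ D.T ∧ D.s v = i ∧ D.dep i v = d} := by
      ext v
      constructor
      · rintro ⟨h1, h2, h3⟩
        rw [hs2 v (hTW v h1)] at h2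
        exact ⟨h1, h2, h3⟩
      · rintro ⟨h1, h2, h3⟩
        refine ⟨h1, ?_, h3⟩
        rw [hs2 v (hTW v h1)]
        exact h2
    rw [this]
    exact hI.i7d i hi d
  · -- i7e
    intro i hi
    obtain ⟨h1, h2⟩ := hI.i7e i hi
    refine ⟨h1, ?_⟩
    have : D'.s (D'.root i) = D.s (D.root i) := hs2 _ (hTW _ h1)
    rw [this]
    exact h2
  · -- i9
    intro v hv hvT
    rcases hcase v hv with h | h
    · have hvW := hUW v h
      obtain ⟨h1, h2, h3, h4⟩ := hI.i9 v h hvT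
      have hpW := hUW _ h1
      rw [hp2 v hvW, hs2 v hvW, hs2 _ hpW, hh2 v hvW, hh2 _ hpW]
      exact ⟨hnU' _ h1, h2, h3, h4⟩
    · obtain ⟨h1, h2, h3⟩ := hp v h
      have hpW := hUW _ h1
      rw [hp1 v h, hs1 v h, hs2 _ hpW, hh1 v h, hh2 _ hpW]
      exact ⟨hnU' _ h1, rfl, h2, rfl⟩
  · -- i10
    intro x hx z hz hadj
    have hxU := hU'sub hx
    rcases hcase z hz with h | h
    · rw [hh2 z (hUW z h), hs2 z (hUW z h)]
      exact (hI.i10 x hxU z h hadj).trans (Finset.sum_le_sum (fun l _ => hcmono x l))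
    · rw [hh1 z h, hs1 z h]
      obtain ⟨h1, h2, h3⟩ := hp z h
      have hzU := hWU z h
      have hxc : x ∈ Hc := cmp_step hx0 (hWc z h) hadj.symm hxU
      have h4 := hI.i10 z hzU (p z) h1 h2
      have h5 : D.cnt z = D.cnt x := (hI.i12b x hxU z hzU hadj).symm
      rw [h5] at h4
      have hA : l0 ∈ D.A (D.s (p z)) :=
        hI.i13 x0 hx0 l0 (D.s (p z)) hxH hnb hcnt h3 ⟨z, hWc z h, p z, h1, h2, rfl⟩
      have h6 : ∑ l ∈ D.A (D.s (p z)), D.cnt x l < ∑ l ∈ D.A (D.s (p z)), D'.cnt x l := by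
        apply Finset.sum_lt_sum
        · intro l _; exact hcmono x l
        · refine ⟨l0, hA, ?_⟩
          rw [hc1 x hxc]; omega
      show D.h (p z) + 1 ≤ ∑ l ∈ D.A (D.s (p z)), D'.cnt x l
      omega
  · -- i11
    intro v hv
    rcases hcase v hv with h | h
    · rw [hh2 v (hUW v h)]
      exact hI.i11 v h
    · rw [hh1 v h]
      obtain ⟨h1, h2, h3⟩ := hp v h
      have hvU := hWU v h
      have h4 := hI.i10 v hvU (p v) h1 h2
      have hA : l0 ∈ D.A (D.s (p v)) :=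
        hI.i13 x0 hx0 l0 (D.s (p v)) hxH hnb hcnt h3 ⟨v, hWc v h, p v, h1, h2, rfl⟩
      have h6 : ∑ l ∈ D.A (D.s (p v)), D.cnt v l < ∑ l ∈ D.A (D.s (p v)), k := by
        apply Finset.sum_lt_sum
        · intro l _; exact hI.i12a v hvU l
        · refine ⟨l0, hA, ?_⟩
          rw [hcc v (hWc v h)]; exact hcnt
      rw [Finset.sum_const, smul_eq_mul] at h6
      have h7 : (D.A (D.s (p v))).card * k ≤ m * k :=
        Nat.mul_le_mul_right k (hI.i18 _ (hI.i1 _ h1).1)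
      omega
  · -- i12a
    intro x hx l
    have hxU := hU'sub hx
    by_cases h : x ∈ Hc ∧ l = l0
    · rw [h.2, hc1 x h.1, hcc x h.1]; omega
    · rw [hc2 x l h]
      exact hI.i12a x hxU l
  · -- i12b
    intro x hx y hy hadj
    have hxU := hU'sub hx
    have hyU := hU'sub hy
    have h1 := hI.i12b x hxU y hyU hadj
    funext l
    by_cases h : x ∈ Hc ∧ l = l0
    · have hyc : y ∈ Hc := cmp_step hx0 h.1 hadj hyU
      rw [h.2, hc1 x h.1, hc1 y hyc, h1]
    · have h' : ¬ (y ∈ Hc ∧ l = l0) := fun h'' =>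
        h ⟨cmp_step hx0 h''.1 hadj.symm hxU, h''.2⟩
      rw [hc2 x l h, hc2 y l h', h1]
  · -- i12c
    intro x hx l hn
    have hn' := F3 x hx l hn
    have h : ¬ (x ∈ Hc ∧ l = l0) := by
      rintro ⟨h1, h2⟩
      rw [h2] at hn'
      exact hnb ((hnbc x h1 l0).1 hn')
    rw [hc2 x l h]
    exact hI.i12c x (hU'sub hx) l hn'
  · -- i13
    intro x hx l i hxl hn hc hli hni
    have hni' := F3 x hx i hni
    by_cases hnl : nb G D x l
    · exact nb_mem_A hI (hU'sub hx) hnl hni' hli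
    · exact hI.i13 x (hU'sub hx) l i hxl hnl (lt_of_le_of_lt (hcmono x l) hc) hli hni'
  · -- i14
    intro x hx l hl hxl hn
    have hxU := hU'sub hx
    by_cases hnl : nb G D x l
    · have h0 := hI.i12c x hxU l hnl
      have h : ¬ (x ∈ Hc ∧ l = l0) := by
        rintro ⟨h1, h2⟩
        rw [h2] at hnl
        exact hnb ((hnbc x h1 l0).1 hnl)
      apply i14_zero hx hn
      rw [hc2 x l h]
      exact h0
    · obtain ⟨C, hC, hR⟩ := hI.i14 x hxU l hl hxl hnl
      refine ⟨C, F4 l C hC, ?_⟩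
      intro y hy z hz
      have hyc := hcmp x hy
      by_cases h : x ∈ Hc ∧ l = l0
      · obtain ⟨hxc, rfl⟩ := h
        rw [hc1 x hxc] at hz
        cases hz with
        | refl => exact hR y hyc y (Rch.refl _ _)
        | step hadj hv hr =>
          rename_i v
          by_cases hvU : v ∈ D.U
          · exact hR v (cmp_step hxU hyc hadj hvU) z (hr.mono (F5 l))
          · exfalso
            have hvd := hv.2
            have hvW := hUW v hvU
            rw [hs2 v hvW] at hvd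
            have hle : l ≤ D.s v := by
              rcases hvd with h' | h'
              · exact absurd (hU'sub h') hvU
              · exact h'
            rcases lt_or_eq_of_le hle with h' | h'
            · have hyU' : y ∈ D'.U := cmp_sub hx hy
              apply ((hU' y).1 hyU').2
              rw [hW y]
              refine ⟨?_, v, hvU, hadj, h'⟩
              have := cmp_eq hxc
              rw [this] at hyc
              exact hyc
            · exact hnl ⟨y, hyc, v, hvU, hadj, h'.symm⟩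
      · rw [hc2 x l h] at hz
        exact hR y hyc z (hz.mono (F5 l))
  · -- i15
    intro v hv l hl hvl hA
    rcases hcase v hv with h | h
    · rw [hs2 v (hUW v h)] at hl hA
      obtain ⟨C, hC, hR⟩ := hI.i15 v h l hl hvl hA
      exact ⟨C, F4 l C hC, fun z hz => hR z (hz.mono (F5 l))⟩
    · rw [hs1 v h] at hl hA
      obtain ⟨h1, h2, h3⟩ := hp v h
      have hvU := hWU v h
      have hnj : nb G D v (D.s (p v)) := ⟨v, self_mem_cmp, p v, h1, h2, rfl⟩
      have hnl : ¬ nb G D v l := fun hn => hA (nb_mem_A hI hvU hn hnj hl)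
      have hck : k ≤ D.cnt v l := by
        by_contra hcon
        push Not at hcon
        exact hA (hI.i13 v hvU l _ hvl hnl hcon hl hnj)
      obtain ⟨C, hC, hR⟩ := hI.i14 v hvU l (hl.trans (hI.i1 _ h1).1) hvl hnl
      exact ⟨C, F4 l C hC, fun z hz => hR v self_mem_cmp z ((hz.mono (F5 l)).le hck)⟩
  · -- i17
    intro j hj l hl
    obtain ⟨x, hx, hxs, z, hz, hzs, hadj⟩ := hI.i17 j hj l hl
    refine ⟨x, hx, ?_, z, hnU' z hz, ?_, hadj⟩
    · rw [hs2 x (hTW x hx)]; exact hxs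
    · rw [hs2 z (hUW z hz)]; exact hzs

end Pool.Agent.Work.MP_d68d6d_co_helper67
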