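import Pool.Agent.Work.MP_d68d6d_co_helper67.Create
import Pool.Agent.Work.MP_d68d6d_co_helper67.Peel

/-!
Existence of a complete decomposition.
-/

open Classical

namespace Pool.Agent.Work.MP_d68d6d_co_helper67

universe u

variable {V : Type u} {G : SimpleGraph V} {k m M : ℕ}

/-- the second component of the termination measure. -/
noncomputable def mu [Fintype V] (k : ℕ) (D : Data V) : ℕ :=
  ∑ x : V, ∑ l ∈ Finset.range D.N, if x ∈ D.U then k - D.cnt x l else 0

theorem exists_final [Fintype V] (t : ℕ) (hG : ¬ HasCompleteMinor G t) (hm : t - 2 ≤ m)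
    (hM : max 1 m ≤ M) : ∀ n1 n2 : ℕ, ∀ D : Data V, Inv G k m M D → D.U.ncard = n1 →
    mu k D = n2 → ∃ D' : Data V, Inv G k m M D' ∧ D'.U = ∅ := by
  intro n1
  induction n1 using Nat.strong_induction_on with
  | _ n1 ih1 =>
  intro n2
  induction n2 using Nat.strong_induction_on with
  | _ n2 ih2 =>
  intro D hI h1 h2
  by_cases hU : D.U = ∅
  · exact ⟨D, hI, hU⟩
  obtain ⟨x0, hx0⟩ := Set.nonempty_iff_ne_empty.2 hU
  by_cases hfull : ∀ l, l < D.N → x0 ∈ D.H l → ¬ nb G D x0 l → k ≤ D.cnt x0 l
  · -- creation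
    let An : Finset ℕ := (Finset.range D.N).filter (fun l => nb G D x0 l)
    have hAn : ∀ l, l ∈ An ↔ nb G D x0 l := by
      intro l
      simp only [An, Finset.mem_filter, Finset.mem_range]
      exact ⟨fun h => h.2, fun h => ⟨nb_lt hI h, h⟩⟩
    have hcard : An.card ≤ m := by
      have hmin := minor_of_nbs hI hx0 An (fun i hi => (hAn i).1 hi)
      by_contra hcon
      push Not at hcon
      apply hG
      exact minor_mono (by omega) hmin
    have hy0 : ∀ l ∈ An, ∃ y, y ∈ cmp G D.U x0 ∧ ∃ z, z ∉ D.U ∧ G.Adj y z ∧ D.s z = l := by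
      intro l hl
      obtain ⟨y, hy, z, hz, hadj, hs⟩ := (hAn l).1 hl
      exact ⟨y, hy, z, hz, hadj, hs⟩
    haveI : Nonempty V := ⟨x0⟩
    choose! y hy using hy0
    obtain ⟨dn, q, Tn, e1, e2, e3, e4, e5, e6, e7⟩ :=
      exists_skeleton G D.U x0 hx0 An y (fun l hl => (hy l hl).1)
    have hI' := create_inv hI hx0 hfull An hAn hcard hM y hy dn q Tn e1 e2 e3 e4 e5 e6 e7
    have hlt : (create D (cmp G D.U x0) Tn An x0 dn q).U.ncard < n1 := by
      rw [← h1]
      apply Set.ncard_lt_ncard _ (Set.toFinite _)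
      refine ⟨fun v hv => hv.1, fun h => ?_⟩
      exact (h hx0).2 e2
    exact ih1 _ hlt _ _ hI' rfl rfl
  · -- peeling
    push Not at hfull
    obtain ⟨l0, hl0, hxH, hnb, hcnt⟩ := hfull
    let W : Set V := {v | v ∈ cmp G D.U x0 ∧ ∃ z, z ∉ D.U ∧ G.Adj v z ∧ l0 < D.s z}
    have hp0 : ∀ v ∈ W, ∃ z, z ∉ D.U ∧ G.Adj v z ∧ l0 < D.s z := fun v hv => hv.2
    haveI : Nonempty V := ⟨x0⟩
    choose! p hp using hp0
    have hI' := peel_inv hI hx0 hl0 hxH hnb hcnt W p (fun v => Iff.rfl) hp
    by_cases hW : W = ∅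
    · have hUU : (peel D (cmp G D.U x0) W p l0).U = D.U := by
        show D.U \ W = D.U
        rw [hW, Set.diff_empty]
      have hlt : mu k (peel D (cmp G D.U x0) W p l0) < n2 := by
        rw [← h2]
        unfold mu
        have hN : (peel D (cmp G D.U x0) W p l0).N = D.N := rfl
        rw [hN]
        have hterm : ∀ x l, (if x ∈ (peel D (cmp G D.U x0) W p l0).U then
            k - (peel D (cmp G D.U x0) W p l0).cnt x l else 0) ≤
            (if x ∈ D.U then k - D.cnt x l else 0) := by
          intro x l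
          rw [hUU]
          by_cases hx : x ∈ D.U
          · rw [if_pos hx, if_pos hx]
            have : D.cnt x l ≤ (peel D (cmp G D.U x0) W p l0).cnt x l := by
              show D.cnt x l ≤ if x ∈ cmp G D.U x0 ∧ l = l0 then D.cnt x l + 1 else D.cnt x l
              split_ifs <;> omega
            omega
          · rw [if_neg hx, if_neg hx]
        apply Finset.sum_lt_sum
        · intro x _
          exact Finset.sum_le_sum (fun l _ => hterm x l)
        · refine ⟨x0, Finset.mem_univ _, ?_⟩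
          apply Finset.sum_lt_sum
          · intro l _; exact hterm x0 l
          · refine ⟨l0, Finset.mem_range.2 hl0, ?_⟩
            rw [hUU, if_pos hx0, if_pos hx0]
            have : (peel D (cmp G D.U x0) W p l0).cnt x0 l0 = D.cnt x0 l0 + 1 :=
              if_pos ⟨self_mem_cmp, rfl⟩
            omega
      exact ih2 _ hlt _ hI' (by rw [hUU]; exact h1) rfl
    · obtain ⟨w, hw⟩ := Set.nonempty_iff_ne_empty.2 hW
      have hlt : (peel D (cmp G D.U x0) W p l0).U.ncard < n1 := by
        rw [← h1]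
        apply Set.ncard_lt_ncard _ (Set.toFinite _)
        refine ⟨fun v hv => hv.1, fun h => ?_⟩
        exact (h (cmp_sub hx0 hw.1)).2 hw
      exact ih1 _ hlt _ _ hI' rfl rfl

/-- the initial data. -/
noncomputable def initial (V : Type u) [Nonempty V] : Data V where
  U := Set.univ
  s := fun _ => 0
  N := 0
  H := fun _ => ∅
  A := fun _ => ∅
  T := ∅
  par := id
  h := fun _ => 0
  dep := fun _ _ => 0
  root := fun _ => Classical.arbitrary V
  cnt := fun _ _ => 0

theorem initial_inv [Nonempty V] : Inv G k m M (initial V) where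
  i1 := fun v hv => absurd (Set.mem_univ v) hv
  i2 := fun i hi => absurd hi (Nat.not_lt_zero i)
  i3 := fun i hi => absurd hi (Nat.not_lt_zero i)
  i4 := fun i hi => absurd hi (Nat.not_lt_zero i)
  i7a := fun v hv => absurd hv (Set.notMem_empty v)
  i7b := fun v hv => absurd hv (Set.notMem_empty v)
  i7c := fun v hv => absurd hv (Set.notMem_empty v)
  i7d := fun i hi => absurd hi (Nat.not_lt_zero i)
  i7e := fun i hi => absurd hi (Nat.not_lt_zero i)
  i8 := fun i hi => absurd hi (Nat.not_lt_zero i)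
  i9 := fun v hv => absurd (Set.mem_univ v) hv
  i10 := fun x _ z hz => absurd (Set.mem_univ z) hz
  i11 := fun v hv => absurd (Set.mem_univ v) hv
  i12a := fun x _ l => Nat.zero_le _
  i12b := fun x _ y _ _ => rfl
  i12c := fun x _ l _ => rfl
  i13 := fun x _ l i hx => absurd hx (Set.notMem_empty x)
  i14 := fun x _ l hl => absurd hl (Nat.not_lt_zero l)
  i15 := fun v hv => absurd (Set.mem_univ v) hv
  i17 := fun i hi => absurd hi (Nat.not_lt_zero i)
  i18 := fun i hi => absurd hi (Nat.not_lt_zero i)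

theorem exists_decomposition [Fintype V] [Nonempty V] (t : ℕ) (hG : ¬ HasCompleteMinor G t)
    (hm : t - 2 ≤ m) (hM : max 1 m ≤ M) (k : ℕ) :
    ∃ D : Data V, Inv G k m M D ∧ D.U = ∅ :=
  exists_final t hG hm hM _ _ (initial V) initial_inv rfl rfl

end Pool.Agent.Work.MP_d68d6d_co_helper67
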