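import Pool.Agent.Work.MP_d68d6d_co_helper67.Basic

/-!
Clusters of a complete decomposition.
-/

open Classical

namespace Pool.Agent.Work.MP_d68d6d_co_helper67

universe u

variable {V : Type u} {G : SimpleGraph V} {k m M : ℕ} {D : Data V}

/-- length of the depth bands. -/
def bandL (k m : ℕ) : ℕ := 2 * (m * k) + k + 1

/-- one step towards the root of the cluster. -/
noncomputable def stp (D : Data V) (L : ℕ) (v : V) : V :=
  if v ∈ D.T ∧ L ∣ D.dep (D.s v) v then v else D.par v

/-- remaining number of steps. -/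
noncomputable def phi (D : Data V) (L : ℕ) (v : V) : ℕ :=
  if v ∈ D.T then D.dep (D.s v) v % L else D.h v + L

/-- root of the cluster. -/
noncomputable def clr (D : Data V) (L R : ℕ) (v : V) : V := (stp D L)^[R] v

theorem stp_T_dvd {L : ℕ} {v : V} (hT : v ∈ D.T) (hd : L ∣ D.dep (D.s v) v) :
    stp D L v = v := if_pos ⟨hT, hd⟩

theorem stp_T_ndvd {L : ℕ} {v : V} (hd : ¬ L ∣ D.dep (D.s v) v) :
    stp D L v = D.par v := if_neg (fun h => hd h.2)

theorem stp_nT {L : ℕ} {v : V} (hT : v ∉ D.T) : stp D L v = D.par v := if_neg (fun h => hT h.1)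

section

variable (hI : Inv G k m M D) (hU : D.U = ∅) {L : ℕ} (hL : 0 < L)

include hI hU

theorem stp_s (v : V) : D.s (stp D L v) = D.s v := by
  have hv : v ∉ D.U := by rw [hU]; exact Set.notMem_empty v
  by_cases hT : v ∈ D.T
  · by_cases hd : L ∣ D.dep (D.s v) v
    · rw [stp_T_dvd hT hd]
    · rw [stp_T_ndvd hd]
      have hne : D.dep (D.s v) v ≠ 0 := fun h => hd (by rw [h]; exact dvd_zero L)
      exact (hI.i7b v hT hne).2.1
  · rw [stp_nT hT]
    exact (hI.i9 v hv hT).2.1

theorem stp_adj (v : V) : stp D L v = v ∨ G.Adj v (stp D L v) := by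
  have hv : v ∉ D.U := by rw [hU]; exact Set.notMem_empty v
  by_cases hT : v ∈ D.T
  · by_cases hd : L ∣ D.dep (D.s v) v
    · left; exact stp_T_dvd hT hd
    · right
      rw [stp_T_ndvd hd]
      have hne : D.dep (D.s v) v ≠ 0 := fun h => hd (by rw [h]; exact dvd_zero L)
      exact (hI.i7b v hT hne).2.2.1
  · right
    rw [stp_nT hT]
    exact (hI.i9 v hv hT).2.2.1

include hL

theorem phi_zero {v : V} (h : phi D L v = 0) : v ∈ D.T ∧ L ∣ D.dep (D.s v) v ∧ stp D L v = v := by
  by_cases hT : v ∈ D.T
  · unfold phi at h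
    rw [if_pos hT] at h
    have hd := Nat.dvd_of_mod_eq_zero h
    exact ⟨hT, hd, stp_T_dvd hT hd⟩
  · unfold phi at h
    rw [if_neg hT] at h
    omega

theorem phi_stp (v : V) : phi D L (stp D L v) ≤ phi D L v - 1 := by
  have hv : v ∉ D.U := by rw [hU]; exact Set.notMem_empty v
  by_cases hT : v ∈ D.T
  · by_cases hd : L ∣ D.dep (D.s v) v
    · rw [stp_T_dvd hT hd]
      unfold phi
      rw [if_pos hT, Nat.mod_eq_zero_of_dvd hd]
    · rw [stp_T_ndvd hd]
      have hne : D.dep (D.s v) v ≠ 0 := fun h => hd (by rw [h]; exact dvd_zero L)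
      obtain ⟨h1, h2, _, h4⟩ := hI.i7b v hT hne
      unfold phi
      rw [if_pos hT, if_pos h1, h2, ← h4]
      have hmod : (D.dep (D.s v) (D.par v) + 1) % L ≠ 0 := by
        intro h
        apply hd
        rw [← h4]
        exact Nat.dvd_of_mod_eq_zero h
      have h5 : (D.dep (D.s v) (D.par v) + 1) % L =
          (D.dep (D.s v) (D.par v) % L + 1) % L := by rw [Nat.mod_add_mod]
      have h6 : D.dep (D.s v) (D.par v) % L < L := Nat.mod_lt _ hL
      have h7 : D.dep (D.s v) (D.par v) % L + 1 < L := by
        rcases lt_or_eq_of_le (Nat.succ_le_of_lt h6) with h | h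
        · exact h
        · exfalso
          apply hmod
          rw [h5]
          have : D.dep (D.s v) (D.par v) % L + 1 = L := h
          rw [this, Nat.mod_self]
      rw [h5, Nat.mod_eq_of_lt h7]
      omega
  · rw [stp_nT hT]
    obtain ⟨_, _, _, h4⟩ := hI.i9 v hv hT
    unfold phi
    rw [if_neg hT]
    by_cases hT' : D.par v ∈ D.T
    · rw [if_pos hT']
      have := Nat.mod_lt (D.dep (D.s (D.par v)) (D.par v)) hL
      omega
    · rw [if_neg hT']
      omega

theorem phi_iter (n : ℕ) (v : V) : phi D L ((stp D L)^[n] v) ≤ phi D L v - n := by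
  induction n with
  | zero => simp
  | succ n ih =>
    rw [Function.iterate_succ_apply']
    have := phi_stp hI hU hL ((stp D L)^[n] v)
    omega

omit hL in
theorem iter_s (n : ℕ) (v : V) : D.s ((stp D L)^[n] v) = D.s v := by
  induction n with
  | zero => rfl
  | succ n ih => rw [Function.iterate_succ_apply', stp_s hI hU, ih]

theorem phi_le (v : V) : phi D L v ≤ m * k + L := by
  have hv : v ∉ D.U := by rw [hU]; exact Set.notMem_empty v
  unfold phi
  by_cases hT : v ∈ D.T
  · rw [if_pos hT]
    have := Nat.mod_lt (D.dep (D.s v) v) hL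
    omega
  · rw [if_neg hT]
    have := hI.i11 v hv
    omega

variable {R : ℕ} (hR : m * k + L ≤ R)

include hR

theorem clr_spec (v : V) : clr D L R v ∈ D.T ∧ D.s (clr D L R v) = D.s v ∧
    L ∣ D.dep (D.s v) (clr D L R v) ∧ stp D L (clr D L R v) = clr D L R v := by
  have h1 := phi_iter hI hU hL R v
  have h2 := phi_le hI hU hL v
  have h3 : phi D L (clr D L R v) = 0 := by
    unfold clr
    omega
  obtain ⟨h4, h5, h6⟩ := phi_zero hI hU hL h3
  have h7 : D.s (clr D L R v) = D.s v := iter_s hI hU R v
  rw [h7] at h5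
  exact ⟨h4, h7, h5, h6⟩

theorem clr_stp (v : V) : clr D L R (stp D L v) = clr D L R v := by
  have := (clr_spec hI hU hL hR v).2.2.2
  unfold clr at this ⊢
  rw [← Function.iterate_succ_apply, Function.iterate_succ_apply']
  exact this

theorem clr_fix {v : V} (h : stp D L v = v) : clr D L R v = v := by
  unfold clr
  exact Function.iterate_fixed h R

theorem clr_clr (v : V) : clr D L R (clr D L R v) = clr D L R v :=
  clr_fix hI hU hL hR (clr_spec hI hU hL hR v).2.2.2

/-- on the skeleton, the depth of the cluster root is the depth rounded down. -/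
theorem dep_clr_T : ∀ n, ∀ v ∈ D.T, D.dep (D.s v) v % L = n →
    D.dep (D.s v) (clr D L R v) = L * (D.dep (D.s v) v / L) := by
  intro n
  induction n with
  | zero =>
    intro v hT hn
    have hd := Nat.dvd_of_mod_eq_zero hn
    rw [clr_fix hI hU hL hR (stp_T_dvd hT hd)]
    exact (Nat.mul_div_cancel' hd).symm
  | succ n ih =>
    intro v hT hn
    have hd : ¬ L ∣ D.dep (D.s v) v := by
      intro h
      rw [Nat.mod_eq_zero_of_dvd h] at hn
      omega
    have hne : D.dep (D.s v) v ≠ 0 := fun h => hd (by rw [h]; exact dvd_zero L)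
    obtain ⟨h1, h2, _, h4⟩ := hI.i7b v hT hne
    have h5 : (D.dep (D.s v) v) / L = D.dep (D.s v) (D.par v) / L ∧
        D.dep (D.s v) (D.par v) % L = n := by
      have e1 := Nat.div_add_mod (D.dep (D.s v) v) L
      rw [hn] at e1
      have hnL : n + 1 < L := by
        have := Nat.mod_lt (D.dep (D.s v) v) hL
        omega
      have e2 : D.dep (D.s v) (D.par v) = n + L * (D.dep (D.s v) v / L) := by omega
      constructor
      · rw [e2, Nat.add_mul_div_left _ _ hL, Nat.div_eq_of_lt (show n < L by omega)]
        omega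
      · rw [e2, Nat.add_mul_mod_self_left, Nat.mod_eq_of_lt (show n < L by omega)]
    have h6 := ih (D.par v) h1 (by rw [h2]; exact h5.2)
    have h7 : clr D L R (D.par v) = clr D L R v := by
      rw [← stp_T_ndvd hd]
      exact clr_stp hI hU hL hR v
    rw [h2, h7] at h6
    rw [h6, h5.1]

/-- the skeleton vertex below a vertex. -/
theorem exists_proj : ∀ n, ∀ v, D.h v = n → ∃ w ∈ D.T, D.s w = D.s v ∧
    clr D L R w = clr D L R v ∧ D.dep (D.s v) v ≤ D.dep (D.s v) w + n ∧
    D.dep (D.s v) w ≤ D.dep (D.s v) v + n := by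
  intro n
  induction n with
  | zero =>
    intro v hn
    by_cases hT : v ∈ D.T
    · exact ⟨v, hT, rfl, rfl, by omega, by omega⟩
    · exfalso
      have := (hI.i9 v (by rw [hU]; exact Set.notMem_empty v) hT).2.2.2
      omega
  | succ n ih =>
    intro v hn
    by_cases hT : v ∈ D.T
    · exact ⟨v, hT, rfl, rfl, by omega, by omega⟩
    · obtain ⟨h1, h2, h3, h4⟩ := hI.i9 v (by rw [hU]; exact Set.notMem_empty v) hT
      obtain ⟨w, hw, e1, e2, e3, e4⟩ := ih (D.par v) (by omega)
      rw [h2] at e1 e3 e4
      have hvH := (hI.i1 v (by rw [hU]; exact Set.notMem_empty v))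
      have hpH := (hI.i1 (D.par v) h1).2
      rw [h2] at hpH
      have f1 := hI.i8 _ hvH.1 v hvH.2 _ hpH h3
      have f2 := hI.i8 _ hvH.1 _ hpH v hvH.2 h3.symm
      refine ⟨w, hw, e1, ?_, by omega, by omega⟩
      rw [e2, ← stp_nT (L := L) hT]
      exact clr_stp hI hU hL hR v

end

section

variable (hI : Inv G k m M D) (hU : D.U = ∅) {R : ℕ} (hR : m * k + bandL k m ≤ R)

include hI hU hR

/-- few cluster roots for vertices of one supernode whose depths are close. -/
theorem card_roots [Finite V] (i : ℕ) (Q : Finset V) (hQ : ∀ x ∈ Q, D.s x = i)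
    (hdep : ∀ x ∈ Q, ∀ y ∈ Q, D.dep i x ≤ D.dep i y + k) :
    (Q.image (clr D (bandL k m) R)).card ≤ 2 * M := by
  have hL : 0 < bandL k m := Nat.succ_pos _
  set L := bandL k m with hLdef
  have hLv : L = 2 * (m * k) + k + 1 := rfl
  rcases Q.eq_empty_or_nonempty with rfl | hne
  · simp
  have key : ∀ x ∈ Q, ∃ w ∈ D.T, D.s w = i ∧ clr D L R w = clr D L R x ∧
      D.dep i x ≤ D.dep i w + m * k ∧ D.dep i w ≤ D.dep i x + m * k := by
    intro x hx
    obtain ⟨w, hw, e1, e2, e3, e4⟩ := exists_proj hI hU hL hR (D.h x) x rfl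
    have hh := hI.i11 x (by rw [hU]; exact Set.notMem_empty x)
    rw [hQ x hx] at e1 e3 e4
    exact ⟨w, hw, e1, e2, by omega, by omega⟩
  have hN : i < D.N := by
    obtain ⟨x, hx⟩ := hne
    have := (hI.i1 x (by rw [hU]; exact Set.notMem_empty x)).1
    rwa [hQ x hx] at this
  have hc : ∀ x ∈ Q, clr D L R x ∈ D.T ∧ D.s (clr D L R x) = i := by
    intro x hx
    obtain ⟨h1, h2, _, _⟩ := clr_spec hI hU hL hR x
    exact ⟨h1, h2.trans (hQ x hx)⟩
  -- the smallest rounded depth
  obtain ⟨x0, hx0, hmin⟩ := Finset.exists_min_image Q (fun x => D.dep i (clr D L R x)) hne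
  obtain ⟨w0, hw0, a1, a2, a3, a4⟩ := key x0 hx0
  have hd0 := dep_clr_T hI hU hL hR _ w0 hw0 rfl
  rw [a1, a2] at hd0
  set a := D.dep i w0 / L with ha
  have hsub : ((Q.image (clr D L R) : Finset V) : Set V) ⊆
      {v | v ∈ D.T ∧ D.s v = i ∧ D.dep i v = L * a} ∪
      {v | v ∈ D.T ∧ D.s v = i ∧ D.dep i v = L * (a + 1)} := by
    intro v hv
    rw [Finset.coe_image] at hv
    obtain ⟨x, hx, rfl⟩ := hv
    have hx' : x ∈ Q := hx
    obtain ⟨w, hw, b1, b2, b3, b4⟩ := key x hx'
    have hd := dep_clr_T hI hU hL hR _ w hw rfl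
    rw [b1, b2] at hd
    have hle := hmin x hx'
    rw [hd0, hd] at hle
    have hle' : a ≤ D.dep i w / L := Nat.le_of_mul_le_mul_left hle hL
    have hxx := hdep x hx' x0 hx0
    have h1 : D.dep i w ≤ D.dep i w0 + (2 * (m * k) + k) := by omega
    have h2 : D.dep i w / L ≤ a + 1 := by
      have : D.dep i w < L * (a + 2) := by
        have e1 := Nat.div_add_mod (D.dep i w0) L
        have e2 := Nat.mod_lt (D.dep i w0) hL
        rw [← ha] at e1
        have : L * (a + 2) = L * a + L + L := by ring
        omega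
      have := Nat.div_lt_of_lt_mul this
      omega
    have h3 : D.dep i w / L = a ∨ D.dep i w / L = a + 1 := by omega
    rcases h3 with h | h
    · left
      refine ⟨(hc x hx').1, (hc x hx').2, ?_⟩
      rw [hd, h]
    · right
      refine ⟨(hc x hx').1, (hc x hx').2, ?_⟩
      rw [hd, h]
  calc (Q.image (clr D L R)).card = ((Q.image (clr D L R) : Finset V) : Set V).ncard :=
        (Set.ncard_coe_finset _).symm
    _ ≤ _ := Set.ncard_le_ncard hsub (Set.toFinite _)
    _ ≤ _ := Set.ncard_union_le _ _
    _ ≤ M + M := Nat.add_le_add (hI.i7d i hN _) (hI.i7d i hN _)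
    _ = 2 * M := by ring

/-- clusters are connected. -/
theorem cluster_connected (v : V) :
    (G.induce {w | clr D (bandL k m) R w = clr D (bandL k m) R v}).Connected := by
  have hL : 0 < bandL k m := Nat.succ_pos _
  set L := bandL k m
  apply induce_connected (r := clr D L R v)
  · exact clr_clr hI hU hL hR v
  · intro w hw
    have hw' : clr D L R w = clr D L R v := hw
    have key : ∀ n, (res G {w | clr D L R w = clr D L R v}).Reachable w ((stp D L)^[n] w) ∧
        clr D L R ((stp D L)^[n] w) = clr D L R v := by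
      intro n
      induction n with
      | zero => exact ⟨SimpleGraph.Reachable.refl _, hw'⟩
      | succ n ih =>
        rw [Function.iterate_succ_apply']
        have h1 : clr D L R (stp D L ((stp D L)^[n] w)) = clr D L R v := by
          rw [clr_stp hI hU hL hR]; exact ih.2
        refine ⟨?_, h1⟩
        rcases stp_adj hI hU (L := L) ((stp D L)^[n] w) with h | h
        · rw [h]; exact ih.1
        · exact ih.1.trans (SimpleGraph.Adj.reachable ⟨h, ih.2, h1⟩)
    have := (key R).1
    have h2 : (stp D L)^[R] w = clr D L R v := hw'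
    rw [h2] at this
    exact this

omit hR in
/-- clusters are small. -/
theorem cluster_card [Fintype V] [DecidableRel G.Adj] (v : V) :
    {w | clr D (bandL k m) R w = clr D (bandL k m) R v}.ncard ≤ (G.maxDegree + 1) ^ R := by
  set L := bandL k m
  have key : ∀ n, ∀ r : V, (Finset.univ.filter (fun w => (stp D L)^[n] w = r)).card ≤
      (G.maxDegree + 1) ^ n := by
    intro n
    induction n with
    | zero =>
      intro r
      rw [pow_zero]
      apply Finset.card_le_one.2
      intro a ha b hb
      rw [Finset.mem_filter] at ha hb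
      exact ha.2.trans hb.2.symm
    | succ n ih =>
      intro r
      have h1 := Finset.card_le_mul_card_image (f := stp D L)
        (Finset.univ.filter (fun w => (stp D L)^[n + 1] w = r)) (G.maxDegree + 1) (by
          intro b _
          have hsub : (Finset.univ.filter (fun w => (stp D L)^[n + 1] w = r)).filter
              (fun a => stp D L a = b) ⊆ insert b (G.neighborFinset b) := by
            intro a ha
            rw [Finset.mem_filter] at ha
            rw [Finset.mem_insert, SimpleGraph.mem_neighborFinset]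
            rcases stp_adj hI hU (L := L) a with h | h
            · left; rw [← h]; exact ha.2
            · right; rw [ha.2] at h; exact h.symm
          calc _ ≤ (insert b (G.neighborFinset b)).card := Finset.card_le_card hsub
            _ ≤ (G.neighborFinset b).card + 1 := Finset.card_insert_le _ _
            _ = G.degree b + 1 := rfl
            _ ≤ G.maxDegree + 1 := Nat.add_le_add_right (G.degree_le_maxDegree b) 1)
      have h2 : (Finset.univ.filter (fun w => (stp D L)^[n + 1] w = r)).image (stp D L) ⊆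
          Finset.univ.filter (fun w => (stp D L)^[n] w = r) := by
        intro b hb
        rw [Finset.mem_image] at hb
        obtain ⟨a, ha, rfl⟩ := hb
        rw [Finset.mem_filter] at ha ⊢
        refine ⟨Finset.mem_univ _, ?_⟩
        have := ha.2
        rw [Function.iterate_succ_apply] at this
        exact this
      calc _ ≤ (G.maxDegree + 1) * _ := h1
        _ ≤ (G.maxDegree + 1) * (G.maxDegree + 1) ^ n :=
          Nat.mul_le_mul_left _ ((Finset.card_le_card h2).trans (ih r))
        _ = (G.maxDegree + 1) ^ (n + 1) := by ring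
  have := key R (clr D L R v)
  calc _ = ((Finset.univ.filter (fun w => (stp D L)^[R] w = clr D L R v) : Finset V) : Set V).ncard := by
        congr 1
        ext w
        rw [Finset.coe_filter]
        simp only [Finset.mem_univ, true_and]
        rfl
    _ = _ := Set.ncard_coe_finset _
    _ ≤ _ := this

end

end Pool.Agent.Work.MP_d68d6d_co_helper67
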