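import Pool.Agent.Work.MP_d68d6d_co_helper67.Clusters

/-!
Counting the clusters met by a short clean path.
-/

open Classical

namespace Pool.Agent.Work.MP_d68d6d_co_helper67

universe u

variable {V : Type u} {G : SimpleGraph V} {k m M : ℕ} {D : Data V}

/-- from the head of a chain one reaches every entry. -/
theorem rch_of_chain {S : Set V} : ∀ (P : List V) (a : V), (a :: P).IsChain G.Adj →
    (∀ x ∈ a :: P, x ∈ S) → ∀ y ∈ a :: P, Rch G S P.length a y := by
  intro P
  induction P with
  | nil =>
    intro a _ _ y hy
    rw [List.mem_singleton] at hy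
    rw [hy]
    exact Rch.refl _ _
  | cons b P ih =>
    intro a hc hS y hy
    rw [List.isChain_cons_cons] at hc
    rcases List.mem_cons.1 hy with rfl | hy
    · exact Rch.refl _ _
    · exact Rch.step hc.1 (hS b (by simp)) (ih b hc.2 (fun x hx => hS x (List.mem_cons_of_mem _ hx)) y hy)

theorem chain_of_infix {P Q : List V} (hc : P.IsChain G.Adj) (h : Q <:+: P) : Q.IsChain G.Adj := by
  obtain ⟨a, b, rfl⟩ := h
  exact hc.left_of_append.right_of_append

theorem rch_of_chain' {S : Set V} {n : ℕ} (P : List V) (hc : P.IsChain G.Adj)
    (hS : ∀ x ∈ P, x ∈ S) (hn : P.length ≤ n + 1) {x y : V} (hx : x ∈ P) (hy : y ∈ P) :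
    Rch G S n x y := by
  obtain ⟨P1, P2, rfl⟩ := List.append_of_mem hx
  rw [List.length_append, List.length_cons] at hn
  rcases List.mem_append.1 hy with h | h
  · have hrev : (P1 ++ x :: P2).reverse.IsChain G.Adj := by
      rw [List.isChain_reverse]
      exact List.IsChain.imp (fun _ _ h => h.symm) hc
    have heq : (P1 ++ x :: P2).reverse = P2.reverse ++ (x :: P1.reverse) := by simp
    rw [heq] at hrev
    have hch : (x :: P1.reverse).IsChain G.Adj := chain_of_infix hrev (List.suffix_append _ _).isInfix
    have := rch_of_chain (S := S) P1.reverse x hch (by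
      intro z hz
      apply hS
      rcases List.mem_cons.1 hz with rfl | hz
      · simp
      · rw [List.mem_reverse] at hz
        exact List.mem_append_left _ hz) y (List.mem_cons_of_mem _ (List.mem_reverse.2 h))
    rw [List.length_reverse] at this
    exact this.le (by omega)
  · have hch : (x :: P2).IsChain G.Adj := chain_of_infix hc (List.suffix_append _ _).isInfix
    have := rch_of_chain (S := S) P2 x hch (fun z hz => hS z (List.mem_append_right _ hz)) y h
    exact this.le (by omega)

/-- splitting a list at the elements with a given property. -/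
theorem length_split {p : V → Prop} [DecidablePred p] {g : ℕ} : ∀ (n : ℕ) (P : List V), P.length ≤ n →
    (∀ Q, Q <:+: P → (∀ x ∈ Q, ¬ p x) → Q.length ≤ g) →
    P.length ≤ (P.filter (fun x => decide (p x))).length +
      ((P.filter (fun x => decide (p x))).length + 1) * g := by
  intro n
  induction n with
  | zero =>
    intro P hP _
    have : P = [] := List.length_eq_zero_iff.1 (by omega)
    subst this
    simp
  | succ n ih =>
    intro P hP hg
    by_cases hall : ∀ x ∈ P, ¬ p x
    · have h1 := hg P (List.infix_refl P) hall
      have : (P.filter (fun x => decide (p x))).length + 1 ≥ 1 := by omega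
      calc P.length ≤ g := h1
        _ = 1 * g := (one_mul g).symm
        _ ≤ ((P.filter (fun x => decide (p x))).length + 1) * g := Nat.mul_le_mul_right g this
        _ ≤ _ := Nat.le_add_left _ _
    · push Not at hall
      -- split at the first element with the property
      have hsplit : ∃ P1 x P2, P = P1 ++ x :: P2 ∧ p x ∧ ∀ y ∈ P1, ¬ p y := by
        clear hP hg ih
        induction P with
        | nil => obtain ⟨x, hx, _⟩ := hall; exact absurd hx (by simp)
        | cons a P ih =>
          by_cases ha : p a
          · exact ⟨[], a, P, rfl, ha, by simp⟩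
          · obtain ⟨x, hx, hpx⟩ := hall
            have hx' : x ∈ P := by
              rcases List.mem_cons.1 hx with rfl | h
              · exact absurd hpx ha
              · exact h
            obtain ⟨P1, z, P2, e, hz, hP1⟩ := ih ⟨x, hx', hpx⟩
            refine ⟨a :: P1, z, P2, by rw [e]; rfl, hz, ?_⟩
            intro y hy
            rcases List.mem_cons.1 hy with rfl | h
            · exact ha
            · exact hP1 y h
      obtain ⟨P1, x, P2, rfl, hpx, hP1⟩ := hsplit
      have h1 := hg P1 (List.prefix_append _ _).isInfix hP1
      rw [List.length_append, List.length_cons] at hP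
      have h2 := ih P2 (by omega) (fun Q hQ hQp => hg Q
        (hQ.trans ((List.suffix_cons _ _).isInfix.trans (List.suffix_append _ _).isInfix)) hQp)
      have h3 : (P1.filter (fun x => decide (p x))) = [] := by
        rw [List.filter_eq_nil_iff]
        intro a ha
        simpa using hP1 a ha
      rw [List.filter_append, h3, List.nil_append, List.filter_cons_of_pos (by simpa using hpx),
        List.length_append, List.length_cons, List.length_cons]
      set c := (P2.filter (fun x => decide (p x))).length
      have : (c + 1 + 1) * g = (c + 1) * g + g := by ring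
      omega

section

variable (hI : Inv G k m M D) (hU : D.U = ∅)

include hI hU

theorem rch_H {i : ℕ} (hi : i < D.N) {n : ℕ} {a b : V} (h : Rch G {v | i ≤ D.s v} n a b)
    (ha : a ∈ D.H i) : b ∈ D.H i := by
  induction h with
  | refl => exact ha
  | step hadj hv _ ih =>
    apply ih
    by_contra hcon
    have := (hI.i2 i hi _ ha _ hcon hadj).2
    have h2 := hI.i3 i hi _ this
    have h3 : i ≤ _ := hv
    omega

omit hU in
theorem rch_dep {i : ℕ} (hi : i < D.N) {n : ℕ} {a b : V} (h : Rch G (dom D i) n a b)
    (ha : a ∈ D.H i) : D.dep i a ≤ D.dep i b + n := by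
  induction h with
  | refl => omega
  | step hadj hv _ ih =>
    have h1 := ih hv.1
    have h2 := hI.i8 i hi _ ha _ hv.1 hadj
    omega

theorem mem_A_of_rch {i : ℕ} {x y : V} (hx : i < D.s x) (hxH : x ∈ D.H i)
    (hy : D.s y = i) (h : Rch G (dom D i) k x y) : i ∈ D.A (D.s x) := by
  by_contra hcon
  have hxU : x ∉ D.U := by rw [hU]; exact Set.notMem_empty x
  have hyU : y ∉ D.U := by rw [hU]; exact Set.notMem_empty y
  obtain ⟨C, hC, hR⟩ := hI.i15 x hxU i hx hxH hcon
  exact hC.2 y (hR y h) hyU hy

variable {R : ℕ} (hR : m * k + bandL k m ≤ R)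

include hR

theorem clean_length [Finite V] : ∀ (e : ℕ) (B : Finset ℕ) (P : List V), m + 1 ≤ B.card + e →
    P.IsChain G.Adj → P.length ≤ k + 1 → (P.map (clr D (bandL k m) R)).Nodup →
    (∀ x ∈ P, B ⊆ D.A (D.s x)) → P.length + 1 ≤ (2 * M + 1) ^ e := by
  intro e
  induction e with
  | zero =>
    intro B P hB _ _ _ hA
    cases P with
    | nil => simp
    | cons a P =>
      exfalso
      have h1 := Finset.card_le_card (hA a (by simp))
      have h2 := hI.i18 _ (hI.i1 a (by rw [hU]; exact Set.notMem_empty a)).1
      omega
  | succ e ih =>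
    intro B P hB hc hlen hnd hA
    have hUn : ∀ v, v ∉ D.U := fun v => by rw [hU]; exact Set.notMem_empty v
    rcases P.eq_nil_or_concat with rfl | hne
    · simp only [List.length_nil]
      exact Nat.one_le_pow _ _ (Nat.succ_pos _)
    have hPne : P.toFinset.Nonempty := by
      obtain ⟨Q, b, rfl⟩ := hne
      exact ⟨b, by simp⟩
    obtain ⟨y0, hy0, hmin⟩ := Finset.exists_min_image P.toFinset D.s hPne
    rw [List.mem_toFinset] at hy0
    set i := D.s y0 with hi
    have hiN : i < D.N := (hI.i1 y0 (hUn y0)).1
    have hge : ∀ x ∈ P, i ≤ D.s x := fun x hx => hmin x (List.mem_toFinset.2 hx)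
    have hH : ∀ x ∈ P, x ∈ D.H i := by
      intro x hx
      exact rch_H hI hU hiN (rch_of_chain' (n := k) P hc hge hlen hy0 hx) (hI.i1 y0 (hUn y0)).2
    have hdom : ∀ x ∈ P, x ∈ dom D i := fun x hx => ⟨hH x hx, Or.inr (hge x hx)⟩
    have hrch : ∀ x ∈ P, ∀ y ∈ P, Rch G (dom D i) k x y := fun x hx y hy =>
      rch_of_chain' P hc hdom hlen hx hy
    -- members of the top supernode
    have hcount : (P.filter (fun x => decide (D.s x = i))).length ≤ 2 * M := by
      have hnd2 : ((P.filter (fun x => decide (D.s x = i))).map (clr D (bandL k m) R)).Nodup :=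
        hnd.sublist (List.Sublist.map _ List.filter_sublist)
      have h1 : (P.filter (fun x => decide (D.s x = i))).length =
          ((P.filter (fun x => decide (D.s x = i))).map (clr D (bandL k m) R)).toFinset.card := by
        rw [List.toFinset_card_of_nodup hnd2, List.length_map]
      have h2 : ((P.filter (fun x => decide (D.s x = i))).map (clr D (bandL k m) R)).toFinset =
          (P.filter (fun x => decide (D.s x = i))).toFinset.image (clr D (bandL k m) R) := by
        ext v
        simp
      rw [h1, h2]
      apply card_roots hI hU hR i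
      · intro x hx
        rw [List.mem_toFinset, List.mem_filter] at hx
        simpa using hx.2
      · intro x hx y hy
        rw [List.mem_toFinset, List.mem_filter] at hx hy
        exact rch_dep hI hiN (hrch x hx.1 y hy.1) (hH x hx.1)
    -- the pieces between them
    have hpieces : ∀ Q, Q <:+: P → (∀ x ∈ Q, ¬ D.s x = i) → Q.length ≤ (2 * M + 1) ^ e - 1 := by
      intro Q hQ hQp
      have hiB : i ∉ B := by
        intro h
        have := hI.i3 i hiN i (hA y0 hy0 h)
        omega
      have := ih (insert i B) Q (by rw [Finset.card_insert_of_notMem hiB]; omega)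
        (chain_of_infix hc hQ) ((List.IsInfix.length_le hQ).trans hlen)
        (hnd.sublist (List.Sublist.map _ hQ.sublist)) (by
          intro x hx
          have hxP := hQ.sublist.subset hx
          rw [Finset.insert_subset_iff]
          refine ⟨?_, hA x hxP⟩
          have h1 := hge x hxP
          have h2 := hQp x hx
          exact mem_A_of_rch hI hU (by omega) (hH x hxP) rfl (hrch x hxP y0 hy0))
      omega
    have hfin : P.length ≤ (P.filter (fun x => decide (D.s x = i))).length +
        ((P.filter (fun x => decide (D.s x = i))).length + 1) * ((2 * M + 1) ^ e - 1) := by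
      exact length_split (p := fun x => D.s x = i) P.length P le_rfl hpieces
    set c := (P.filter (fun x => decide (D.s x = i))).length
    set g := (2 * M + 1) ^ e with hg
    have hg1 : 1 ≤ g := Nat.one_le_pow _ _ (Nat.succ_pos _)
    obtain ⟨g', hg'⟩ : ∃ g', g = g' + 1 := ⟨g - 1, by omega⟩
    rw [pow_succ, ← hg, hg']
    rw [hg'] at hfin
    have h1 : (c + 1) * (g' + 1 - 1) ≤ (2 * M + 1) * g' := by
      rw [Nat.add_sub_cancel]
      exact Nat.mul_le_mul_right _ (by omega)
    have h2 : (g' + 1) * (2 * M + 1) = (2 * M + 1) * g' + (2 * M + 1) := by ring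
    omega

end

end Pool.Agent.Work.MP_d68d6d_co_helper67
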