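import Pool.Agent.Work.MP_d68d6d_co_helper67.Minor

/-!
The creation step: a new supernode inside a component.
-/

open Classical

namespace Pool.Agent.Work.MP_d68d6d_co_helper67

universe u

variable {V : Type u} {G : SimpleGraph V} {k m M : ℕ} {D : Data V}

/-- a skeleton inside a connected set touching prescribed vertices. -/
theorem exists_skeleton (G : SimpleGraph V) (U : Set V) (x0 : V) (hx0 : x0 ∈ U)
    (An : Finset ℕ) (y : ℕ → V) (hy : ∀ l ∈ An, y l ∈ cmp G U x0) :
    ∃ (dn : V → ℕ) (q : V → V) (Tn : Set V), Tn ⊆ cmp G U x0 ∧ x0 ∈ Tn ∧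
      (∀ l ∈ An, y l ∈ Tn) ∧
      (∀ x ∈ cmp G U x0, ∀ z ∈ cmp G U x0, G.Adj x z → dn x ≤ dn z + 1) ∧
      (∀ x ∈ cmp G U x0, dn x = 0 → x = x0) ∧
      (∀ x ∈ Tn, dn x ≠ 0 → q x ∈ Tn ∧ G.Adj x (q x) ∧ dn (q x) + 1 = dn x) ∧
      (∀ d, {v | v ∈ Tn ∧ dn v = d}.ncard ≤ max 1 An.card) := by
  set Hc := cmp G U x0 with hHc
  let R := res G Hc
  have hreach : ∀ x ∈ Hc, R.Reachable x0 x := by
    intro x hx
    obtain ⟨w⟩ := (hx : (res G U).Reachable x0 x)
    exact cmp_reach hx0 w self_mem_cmp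
  let dn : V → ℕ := fun v => R.dist x0 v
  have h0 : ∀ x ∈ Hc, dn x = 0 → x = x0 := by
    intro x hx hd
    exact ((hreach x hx).dist_eq_zero_iff.1 hd).symm
  have hlip : ∀ x ∈ Hc, ∀ z ∈ Hc, G.Adj x z → dn x ≤ dn z + 1 := by
    intro x hx z hz hadj
    obtain ⟨w, hw⟩ := (hreach z hz).exists_walk_length_eq_dist
    have hzx : R.Adj z x := ⟨hadj.symm, hz, hx⟩
    have := SimpleGraph.dist_le (w.concat hzx)
    rw [SimpleGraph.Walk.length_concat, hw] at this
    exact this
  have hpar : ∀ x ∈ Hc, dn x ≠ 0 → ∃ w ∈ Hc, G.Adj x w ∧ dn w + 1 = dn x := by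
    intro x hx hd
    obtain ⟨w, hw⟩ := (hreach x hx).exists_walk_length_eq_dist
    have hnn : ¬ w.reverse.Nil := by
      intro hnil
      have := SimpleGraph.Walk.nil_iff_length_eq.1 hnil
      rw [SimpleGraph.Walk.length_reverse, hw] at this
      exact hd this
    have hadj := w.reverse.adj_snd hnn
    have hlen := SimpleGraph.Walk.length_tail_add_one hnn
    rw [SimpleGraph.Walk.length_reverse, hw] at hlen
    refine ⟨w.reverse.snd, hadj.2.2, hadj.1, ?_⟩
    have h1 : dn w.reverse.snd ≤ w.reverse.tail.length := by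
      have := SimpleGraph.dist_le w.reverse.tail.reverse
      rw [SimpleGraph.Walk.length_reverse] at this
      exact this
    have h2 := hlip x hx _ hadj.2.2 hadj.1
    have h3 : R.dist x0 x = dn x := rfl
    omega
  choose! q hq using hpar
  let q' : V → V := fun x => if x ∈ Hc ∧ dn x ≠ 0 then q x else x
  have hq'c : ∀ x ∈ Hc, q' x ∈ Hc := by
    intro x hx
    by_cases h : dn x ≠ 0
    · have : q' x = q x := if_pos ⟨hx, h⟩
      rw [this]; exact (hq x hx h).1
    · have : q' x = x := if_neg (fun h' => h h'.2)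
      rw [this]; exact hx
  have hq'd : ∀ x ∈ Hc, dn (q' x) = dn x - 1 := by
    intro x hx
    by_cases h : dn x ≠ 0
    · have : q' x = q x := if_pos ⟨hx, h⟩
      rw [this]
      have := (hq x hx h).2.2
      omega
    · have : q' x = x := if_neg (fun h' => h h'.2)
      rw [this]
      push Not at h
      omega
  have hit : ∀ n, ∀ x ∈ Hc, q'^[n] x ∈ Hc ∧ dn (q'^[n] x) = dn x - n := by
    intro n
    induction n with
    | zero => intro x hx; exact ⟨hx, by simp⟩
    | succ n ih =>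
      intro x hx
      rw [Function.iterate_succ_apply']
      obtain ⟨h1, h2⟩ := ih x hx
      refine ⟨hq'c _ h1, ?_⟩
      rw [hq'd _ h1, h2]
      omega
  let Tn : Set V := {v | v = x0 ∨ ∃ l ∈ An, ∃ n, v = q'^[n] (y l)}
  have hTc : Tn ⊆ Hc := by
    rintro v (rfl | ⟨l, hl, n, rfl⟩)
    · exact self_mem_cmp
    · exact (hit n (y l) (hy l hl)).1
  refine ⟨dn, q', Tn, hTc, Or.inl rfl, ?_, hlip, h0, ?_, ?_⟩
  · intro l hl
    exact Or.inr ⟨l, hl, 0, rfl⟩
  · intro x hx hd
    have hxc := hTc hx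
    refine ⟨?_, ?_, ?_⟩
    · rcases hx with rfl | ⟨l, hl, n, rfl⟩
      · exfalso
        apply hd
        exact SimpleGraph.dist_self
      · exact Or.inr ⟨l, hl, n + 1, by rw [Function.iterate_succ_apply']⟩
    · have : q' x = q x := if_pos ⟨hxc, hd⟩
      rw [this]
      exact (hq x hxc hd).2.1
    · rw [hq'd x hxc]
      omega
  · intro d
    by_cases hd0 : d = 0
    · subst hd0
      have hsub : {v | v ∈ Tn ∧ dn v = 0} ⊆ {x0} := by
        rintro v ⟨hv, hd⟩
        exact h0 v (hTc hv) hd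
      calc {v | v ∈ Tn ∧ dn v = 0}.ncard ≤ ({x0} : Set V).ncard :=
            Set.ncard_le_ncard hsub (Set.finite_singleton _)
        _ = 1 := Set.ncard_singleton _
        _ ≤ max 1 An.card := le_max_left _ _
    · have hsub : {v | v ∈ Tn ∧ dn v = d} ⊆
          ((An.image (fun l => q'^[dn (y l) - d] (y l)) : Finset V) : Set V) := by
        rintro v ⟨hv, hd⟩
        rcases hv with rfl | ⟨l, hl, n, rfl⟩
        · exfalso
          apply hd0
          rw [← hd]
          exact SimpleGraph.dist_self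
        · obtain ⟨h1, h2⟩ := hit n (y l) (hy l hl)
          rw [Finset.coe_image]
          refine ⟨l, hl, ?_⟩
          have : dn (y l) - d = n := by omega
          show q'^[dn (y l) - d] (y l) = _
          rw [this]
      calc {v | v ∈ Tn ∧ dn v = d}.ncard
          ≤ ((An.image (fun l => q'^[dn (y l) - d] (y l)) : Finset V) : Set V).ncard :=
            Set.ncard_le_ncard hsub (Finset.finite_toSet _)
        _ = (An.image (fun l => q'^[dn (y l) - d] (y l))).card := Set.ncard_coe_finset _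
        _ ≤ An.card := Finset.card_image_le
        _ ≤ max 1 An.card := le_max_right _ _

/-- the data after the creation of a supernode. -/
noncomputable def create (D : Data V) (Hc Tn : Set V) (An : Finset ℕ) (x0 : V) (dn : V → ℕ)
    (q : V → V) : Data V where
  U := D.U \ Tn
  s := fun v => if v ∈ Tn then D.N else D.s v
  N := D.N + 1
  H := Function.update D.H D.N Hc
  A := Function.update D.A D.N An
  T := D.T ∪ Tn
  par := fun v => if v ∈ Tn then q v else D.par v
  h := fun v => if v ∈ Tn then 0 else D.h v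
  dep := Function.update D.dep D.N dn
  root := Function.update D.root D.N x0
  cnt := fun v l => if l = D.N then 0 else D.cnt v l

theorem create_inv (hI : Inv G k m M D) {x0 : V} (hx0 : x0 ∈ D.U)
    (hfull : ∀ l, l < D.N → x0 ∈ D.H l → ¬ nb G D x0 l → k ≤ D.cnt x0 l)
    (An : Finset ℕ) (hAn : ∀ l, l ∈ An ↔ nb G D x0 l) (hAm : An.card ≤ m) (hM : max 1 m ≤ M)
    (y : ℕ → V) (hy : ∀ l ∈ An, y l ∈ cmp G D.U x0 ∧ ∃ z, z ∉ D.U ∧ G.Adj (y l) z ∧ D.s z = l)
    (dn : V → ℕ) (q : V → V) (Tn : Set V) (hTc : Tn ⊆ cmp G D.U x0) (hxT : x0 ∈ Tn)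
    (hyT : ∀ l ∈ An, y l ∈ Tn)
    (hlip : ∀ x ∈ cmp G D.U x0, ∀ z ∈ cmp G D.U x0, G.Adj x z → dn x ≤ dn z + 1)
    (h0 : ∀ x ∈ cmp G D.U x0, dn x = 0 → x = x0)
    (hq : ∀ x ∈ Tn, dn x ≠ 0 → q x ∈ Tn ∧ G.Adj x (q x) ∧ dn (q x) + 1 = dn x)
    (hlev : ∀ d, {v | v ∈ Tn ∧ dn v = d}.ncard ≤ max 1 An.card) [Finite V] :
    Inv G k m M (create D (cmp G D.U x0) Tn An x0 dn q) := by
  set Hc := cmp G D.U x0 with hHc
  set D' := create D Hc Tn An x0 dn q with hD'
  have hHcU : Hc ⊆ D.U := cmp_sub hx0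
  have hTU : ∀ v ∈ Tn, v ∈ D.U := fun v hv => hHcU (hTc hv)
  have hUT : ∀ v, v ∉ D.U → v ∉ Tn := fun v hv h => hv (hTU v h)
  have hTT : ∀ v ∈ D.T, v ∉ Tn := fun v hv => hUT v (hI.i7a v hv)
  have hU'sub : D'.U ⊆ D.U := fun v hv => hv.1
  have hnU' : ∀ v, v ∉ D.U → v ∉ D'.U := fun v hv h => hv h.1
  have hs1 : ∀ v ∈ Tn, D'.s v = D.N := fun v hv => if_pos hv
  have hs2 : ∀ v, v ∉ Tn → D'.s v = D.s v := fun v hv => if_neg hv
  have hp1 : ∀ v ∈ Tn, D'.par v = q v := fun v hv => if_pos hv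
  have hp2 : ∀ v, v ∉ Tn → D'.par v = D.par v := fun v hv => if_neg hv
  have hh1 : ∀ v ∈ Tn, D'.h v = 0 := fun v hv => if_pos hv
  have hh2 : ∀ v, v ∉ Tn → D'.h v = D.h v := fun v hv => if_neg hv
  have hN' : D'.N = D.N + 1 := rfl
  have hH1 : D'.H D.N = Hc := Function.update_self _ _ _
  have hH2 : ∀ i, i < D.N → D'.H i = D.H i := fun i hi => Function.update_of_ne (ne_of_lt hi) _ _
  have hA1 : D'.A D.N = An := Function.update_self _ _ _
  have hA2 : ∀ i, i < D.N → D'.A i = D.A i := fun i hi => Function.update_of_ne (ne_of_lt hi) _ _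
  have hd1 : D'.dep D.N = dn := Function.update_self _ _ _
  have hd2 : ∀ i, i < D.N → D'.dep i = D.dep i :=
    fun i hi => Function.update_of_ne (ne_of_lt hi) _ _
  have hr1 : D'.root D.N = x0 := Function.update_self _ _ _
  have hr2 : ∀ i, i < D.N → D'.root i = D.root i :=
    fun i hi => Function.update_of_ne (ne_of_lt hi) _ _
  have hc1 : ∀ v, D'.cnt v D.N = 0 := fun v => if_pos rfl
  have hc2 : ∀ v l, l ≠ D.N → D'.cnt v l = D.cnt v l := fun v l hl => if_neg hl
  have hcase : ∀ v, v ∉ D'.U → v ∉ D.U ∨ v ∈ Tn := by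
    intro v hv
    by_contra hcon
    push Not at hcon
    exact hv ⟨hcon.1, hcon.2⟩
  have hcmp : ∀ v, cmp G D'.U v ⊆ cmp G D.U v := fun v => cmp_mono hU'sub
  have hAN : ∀ l ∈ An, l < D.N := fun l hl => nb_lt hI ((hAn l).1 hl)
  -- F3
  have F3 : ∀ x ∈ D'.U, ∀ i, nb G D' x i → (i < D.N ∧ nb G D x i) ∨ (i = D.N ∧ x ∈ Hc) := by
    intro x hx i hn
    obtain ⟨w, hw, z, hz, hadj, hs⟩ := hn
    have hwc := hcmp x hw
    rcases hcase z hz with h | h
    · rw [hs2 z (hUT z h)] at hs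
      left
      refine ⟨?_, w, hwc, z, h, hadj, hs⟩
      rw [← hs]
      exact (hI.i1 z h).1
    · rw [hs1 z h] at hs
      right
      refine ⟨hs.symm, ?_⟩
      have h1 : w ∈ Hc := cmp_step hx0 (hTc h) hadj.symm (cmp_sub (hU'sub hx) hwc)
      have h2 : x ∈ cmp G D.U w := mem_cmp_symm hwc
      rw [cmp_eq h1] at h2
      exact h2
  -- F4
  have F4 : ∀ l C, l < D.N → Sealed G D l C → Sealed G D' l C := by
    intro l C hl hC
    refine ⟨?_, ?_⟩
    · intro x hx z hz hadj
      obtain ⟨h1, h2⟩ := hC.1 x hx z hz hadj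
      refine ⟨hnU' z h1, ?_⟩
      rw [hs2 z (hUT z h1)]
      exact h2
    · intro x hx hxU
      rcases hcase x hxU with h | h
      · rw [hs2 x (hUT x h)]
        exact hC.2 x hx h
      · rw [hs1 x h]
        exact ne_of_gt hl
  -- F5
  have F5 : ∀ l, l < D.N → dom D' l ⊆ dom D l := by
    intro l hl v hv
    have hv1 := hv.1
    rw [hH2 l hl] at hv1
    refine ⟨hv1, ?_⟩
    rcases hv.2 with h | h
    · exact Or.inl (hU'sub h)
    · by_cases hvT : v ∈ Tn
      · exact Or.inl (hTU v hvT)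
      · rw [hs2 v hvT] at h
        exact Or.inr h
  have hcc : ∀ v ∈ Hc, D.cnt v = D.cnt x0 := fun v hv => cnt_const hI hx0 hv
  have hnbc : ∀ v ∈ Hc, ∀ i, nb G D v i ↔ nb G D x0 i := fun v hv i => nb_congr hv i
  have hx0H : ∀ l, l < D.N → ∀ v ∈ Hc, v ∈ D.H l → x0 ∈ D.H l := by
    intro l hl v hv hvl
    exact cmp_sub_H hI hl hvl (mem_cmp_symm hv)
  have hlt : ∀ {i}, i < D'.N → i < D.N ∨ i = D.N := by
    intro i hi
    have : i < D.N + 1 := hi
    omega
  refine
    { i1 := ?_, i2 := ?_, i3 := ?_, i4 := ?_, i7a := ?_, i7b := ?_, i7c := ?_, i7d := ?_,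
      i7e := ?_, i8 := ?_, i9 := ?_, i10 := ?_, i11 := ?_, i12a := ?_, i12b := ?_,
      i12c := ?_, i13 := ?_, i14 := ?_, i15 := ?_, i17 := ?_, i18 := ?_ }
  · -- i1
    intro v hv
    rcases hcase v hv with h | h
    · rw [hs2 v (hUT v h)]
      obtain ⟨h1, h2⟩ := hI.i1 v h
      rw [hH2 _ h1]
      exact ⟨Nat.lt_succ_of_lt h1, h2⟩
    · rw [hs1 v h, hH1]
      exact ⟨Nat.lt_succ_self _, hTc h⟩
  · -- i2
    intro i hi x hx z hz hadj
    rcases hlt hi with h | rfl
    · rw [hH2 i h] at hx hz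
      obtain ⟨h1, h2⟩ := hI.i2 i h x hx z hz hadj
      refine ⟨hnU' z h1, ?_⟩
      rw [hs2 z (hUT z h1), hA2 i h]
      exact h2
    · rw [hH1] at hx hz
      have hzU := cmp_closed hx0 x hx z hz hadj
      refine ⟨hnU' z hzU, ?_⟩
      rw [hs2 z (hUT z hzU), hA1, hAn]
      exact ⟨x, hx, z, hzU, hadj, rfl⟩
  · -- i3
    intro i hi l hl
    rcases hlt hi with h | rfl
    · rw [hA2 i h] at hl
      exact hI.i3 i h l hl
    · rw [hA1] at hl
      exact hAN l hl
  · -- i4
    intro i hi v hv hvU hsi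
    rcases hlt hi with h | rfl
    · rw [hH2 i h] at hv
      rcases hcase v hvU with h' | h'
      · rw [hs2 v (hUT v h')] at hsi ⊢
        rw [hA2 i h]
        exact hI.i4 i h v hv h' hsi
      · rw [hs1 v h'] at hsi
        omega
    · rw [hH1] at hv
      rcases hcase v hvU with h' | h'
      · exact absurd (hHcU hv) h'
      · rw [hs1 v h'] at hsi
        omega
  · -- i7a
    rintro v (hv | hv)
    · exact hnU' v (hI.i7a v hv)
    · intro h; exact h.2 hv
  · -- i7b
    rintro v (hv | hv) hd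
    · have hvT := hTT v hv
      have hsv := (hI.i1 v (hI.i7a v hv)).1
      rw [hs2 v hvT, hd2 _ hsv] at hd
      obtain ⟨h1, h2, h3, h4⟩ := hI.i7b v hv hd
      rw [hs2 v hvT, hp2 v hvT, hs2 _ (hTT _ h1), hd2 _ hsv]
      exact ⟨Or.inl h1, h2, h3, h4⟩
    · rw [hs1 v hv, hd1] at hd
      obtain ⟨h1, h2, h3⟩ := hq v hv hd
      rw [hs1 v hv, hp1 v hv, hs1 _ h1, hd1]
      exact ⟨Or.inr h1, rfl, h2, h3⟩
  · -- i7c
    rintro v (hv | hv) hd
    · have hvT := hTT v hv
      have hsv := (hI.i1 v (hI.i7a v hv)).1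
      rw [hs2 v hvT, hd2 _ hsv] at hd
      rw [hs2 v hvT, hr2 _ hsv]
      exact hI.i7c v hv hd
    · rw [hs1 v hv, hd1] at hd
      rw [hs1 v hv, hr1]
      exact h0 v (hTc hv) hd
  · -- i7d
    intro i hi d
    rcases hlt hi with h | rfl
    · have : {v | v ∈ D'.T ∧ D'.s v = i ∧ D'.dep i v = d} =
          {v | v ∈ D.T ∧ D.s v = i ∧ D.dep i v = d} := by
        ext v
        constructor
        · rintro ⟨h1, h2, h3⟩
          rw [hd2 i h] at h3
          rcases h1 with h1 | h1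
          · rw [hs2 v (hTT v h1)] at h2
            exact ⟨h1, h2, h3⟩
          · rw [hs1 v h1] at h2
            omega
        · rintro ⟨h1, h2, h3⟩
          refine ⟨Or.inl h1, ?_, ?_⟩
          · rw [hs2 v (hTT v h1)]
            exact h2
          · rw [hd2 i h]
            exact h3
      rw [this]
      exact hI.i7d i h d
    · have hsub : {v | v ∈ D'.T ∧ D'.s v = D.N ∧ D'.dep D.N v = d} ⊆ {v | v ∈ Tn ∧ dn v = d} := by
        rintro v ⟨h1, h2, h3⟩
        rw [hd1] at h3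
        rcases h1 with h1 | h1
        · exfalso
          rw [hs2 v (hTT v h1)] at h2
          have := (hI.i1 v (hI.i7a v h1)).1
          omega
        · exact ⟨h1, h3⟩
      calc _ ≤ {v | v ∈ Tn ∧ dn v = d}.ncard := Set.ncard_le_ncard hsub (Set.toFinite _)
        _ ≤ max 1 An.card := hlev d
        _ ≤ max 1 m := max_le_max le_rfl hAm
        _ ≤ M := hM
  · -- i7e
    intro i hi
    rcases hlt hi with h | rfl
    · obtain ⟨h1, h2⟩ := hI.i7e i h
      rw [hr2 i h]
      refine ⟨Or.inl h1, ?_⟩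
      rw [hs2 _ (hTT _ h1)]
      exact h2
    · rw [hr1]
      exact ⟨Or.inr hxT, hs1 _ hxT⟩
  · -- i8
    intro i hi x hx z hz hadj
    rcases hlt hi with h | rfl
    · rw [hH2 i h] at hx hz
      rw [hd2 i h]
      exact hI.i8 i h x hx z hz hadj
    · rw [hH1] at hx hz
      rw [hd1]
      exact hlip x hx z hz hadj
  · -- i9
    intro v hv hvT
    have hvTn : v ∉ Tn := fun h => hvT (Or.inr h)
    have hvT0 : v ∉ D.T := fun h => hvT (Or.inl h)
    have hvU : v ∉ D.U := by
      rcases hcase v hv with h | h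
      · exact h
      · exact absurd h hvTn
    obtain ⟨h1, h2, h3, h4⟩ := hI.i9 v hvU hvT0
    have hpT := hUT _ h1
    rw [hp2 v hvTn, hs2 v hvTn, hs2 _ hpT, hh2 v hvTn, hh2 _ hpT]
    exact ⟨hnU' _ h1, h2, h3, h4⟩
  · -- i10
    intro x hx z hz hadj
    rcases hcase z hz with h | h
    · rw [hh2 z (hUT z h), hs2 z (hUT z h)]
      have hsz := (hI.i1 z h).1
      rw [hA2 _ hsz]
      refine (hI.i10 x (hU'sub hx) z h hadj).trans (le_of_eq ?_)
      apply Finset.sum_congr rfl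
      intro l hl
      have := hI.i3 _ hsz l hl
      rw [hc2 x l (by omega)]
    · rw [hh1 z h]
      exact Nat.zero_le _
  · -- i11
    intro v hv
    rcases hcase v hv with h | h
    · rw [hh2 v (hUT v h)]
      exact hI.i11 v h
    · rw [hh1 v h]
      exact Nat.zero_le _
  · -- i12a
    intro x hx l
    by_cases h : l = D.N
    · rw [h, hc1]; exact Nat.zero_le _
    · rw [hc2 x l h]; exact hI.i12a x (hU'sub hx) l
  · -- i12b
    intro x hx z hz hadj
    funext l
    by_cases h : l = D.N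
    · rw [h, hc1, hc1]
    · rw [hc2 x l h, hc2 z l h, hI.i12b x (hU'sub hx) z (hU'sub hz) hadj]
  · -- i12c
    intro x hx l hn
    rcases F3 x hx l hn with ⟨h1, h2⟩ | ⟨h1, _⟩
    · rw [hc2 x l (by omega)]
      exact hI.i12c x (hU'sub hx) l h2
    · rw [h1, hc1]
  · -- i13
    intro x hx l i hxl hn hc hli hni
    have hxU := hU'sub hx
    rcases F3 x hx i hni with ⟨h1, h2⟩ | ⟨h1, h2⟩
    · have hlN : l < D.N := by omega
      rw [hH2 l hlN] at hxl
      rw [hc2 x l (by omega)] at hc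
      rw [hA2 i h1]
      by_cases hnl : nb G D x l
      · exact nb_mem_A hI hxU hnl h2 hli
      · exact hI.i13 x hxU l i hxl hnl hc hli h2
    · subst h1
      rw [hH2 l hli] at hxl
      rw [hc2 x l (by omega)] at hc
      rw [hA1, hAn]
      by_contra hcon
      have := hfull l hli (hx0H l hli x h2 hxl) hcon
      rw [hcc x h2] at hc
      omega
  · -- i14
    intro x hx l hl hxl hn
    rcases hlt hl with h | rfl
    · rw [hH2 l h] at hxl
      rw [hc2 x l (by omega)]
      by_cases hnl : nb G D x l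
      · exact i14_zero hx hn (hI.i12c x (hU'sub hx) l hnl)
      · obtain ⟨C, hC, hR⟩ := hI.i14 x (hU'sub hx) l h hxl hnl
        exact ⟨C, F4 l C h hC, fun w hw z hz => hR w (hcmp x hw) z (hz.mono (F5 l h))⟩
    · exact i14_zero hx hn (hc1 x)
  · -- i15
    intro v hv l hl hvl hA
    rcases hcase v hv with h | h
    · rw [hs2 v (hUT v h)] at hl hA
      have hsv := (hI.i1 v h).1
      have hlN : l < D.N := by omega
      rw [hH2 l hlN] at hvl
      rw [hA2 _ hsv] at hA
      obtain ⟨C, hC, hR⟩ := hI.i15 v h l hl hvl hA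
      exact ⟨C, F4 l C hlN hC, fun z hz => hR z (hz.mono (F5 l hlN))⟩
    · rw [hs1 v h] at hl hA
      rw [hA1, hAn] at hA
      rw [hH2 l hl] at hvl
      have hvc := hTc h
      have hvU := hTU v h
      have hnl : ¬ nb G D v l := fun hn => hA ((hnbc v hvc l).1 hn)
      have hck := hfull l hl (hx0H l hl v hvc hvl) hA
      rw [← hcc v hvc] at hck
      obtain ⟨C, hC, hR⟩ := hI.i14 v hvU l hl hvl hnl
      exact ⟨C, F4 l C hl hC, fun z hz => hR v self_mem_cmp z ((hz.mono (F5 l hl)).le hck)⟩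
  · -- i17
    intro j hj l hl
    rcases hlt hj with h | rfl
    · rw [hA2 j h] at hl
      obtain ⟨x, hx, hxs, z, hz, hzs, hadj⟩ := hI.i17 j h l hl
      refine ⟨x, Or.inl hx, ?_, z, hnU' z hz, ?_, hadj⟩
      · rw [hs2 x (hTT x hx)]; exact hxs
      · rw [hs2 z (hUT z hz)]; exact hzs
    · rw [hA1] at hl
      obtain ⟨h1, z, hz, hadj, hzs⟩ := hy l hl
      refine ⟨y l, Or.inr (hyT l hl), hs1 _ (hyT l hl), z, hnU' z hz, ?_, hadj⟩
      rw [hs2 z (hUT z hz)]; exact hzs
  · -- i18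
    intro i hi
    rcases hlt hi with h | rfl
    · rw [hA2 i h]; exact hI.i18 i h
    · rw [hA1]; exact hAm

end Pool.Agent.Work.MP_d68d6d_co_helper67
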