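import Pool.Agent.Work.MP_d68d6d_co_helper67.Build
import Pool.Agent.Work.MP_d68d6d_co_helper67.Count

/-!
Blocking partitions of graphs without a complete minor.
-/

open Classical

namespace Pool.Agent.Work.MP_d68d6d_co_helper67

universe u

theorem main_of_ge {t : ℕ} (ht : 3 ≤ t) (V : Type u) [Fintype V] (G : SimpleGraph V)
    [DecidableRel G.Adj] (hG : ¬ HasCompleteMinor G t) :
    ∃ P : Set (Set V), Setoid.IsPartition P ∧ (∀ A ∈ P, (G.induce A).Connected) ∧
      (∀ A ∈ P, A.ncard ≤ (G.maxDegree + 1) ^ (3 * t * (2 * t - 3) ^ (t - 1))) ∧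
      ∀ (a b : V) (w : G.Walk a b), w.IsPath →
        (∀ A ∈ P, ∀ x ∈ w.support, ∀ y ∈ w.support, x ∈ A → y ∈ A → x = y) →
        w.length ≤ (2 * t - 3) ^ (t - 1) := by
  rcases isEmpty_or_nonempty V with hV | hV
  · refine ⟨∅, ⟨Set.notMem_empty _, fun a => (hV.false a).elim⟩, by simp, by simp, ?_⟩
    intro a
    exact (hV.false a).elim
  set k := (2 * t - 3) ^ (t - 1) with hk
  have hk1 : 1 ≤ k := Nat.one_le_pow _ _ (by omega)
  obtain ⟨D, hI, hU⟩ := exists_decomposition (V := V) (G := G) (m := t - 2) (M := t - 2) t hG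
    le_rfl (by omega) k
  set R := 3 * t * k with hR
  have hRle : (t - 2) * k + bandL k (t - 2) ≤ R := by
    unfold bandL
    obtain ⟨s, hs⟩ : ∃ s, t = s + 3 := ⟨t - 3, by omega⟩
    rw [hR, hs]
    have : s + 3 - 2 = s + 1 := by omega
    rw [this]
    nlinarith
  let c : V → V := clr D (bandL k (t - 2)) R
  have hcl : ∀ A ∈ (Setoid.ker c).classes, ∃ v, A = {w | c w = c v} := by
    rintro A ⟨v, rfl⟩
    exact ⟨v, rfl⟩
  refine ⟨(Setoid.ker c).classes, Setoid.isPartition_classes _, ?_, ?_, ?_⟩
  · intro A hA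
    obtain ⟨v, rfl⟩ := hcl A hA
    exact cluster_connected hI hU hRle v
  · intro A hA
    obtain ⟨v, rfl⟩ := hcl A hA
    exact cluster_card hI hU v
  · intro a b w hw hclean
    by_contra hcon
    push Not at hcon
    have hchain : (w.support.take (k + 1)).IsChain G.Adj := w.isChain_adj_support.take _
    have hlen : (w.support.take (k + 1)).length = k + 1 := by
      rw [List.length_take, SimpleGraph.Walk.length_support]
      omega
    have hsub : ∀ x ∈ w.support.take (k + 1), x ∈ w.support := fun x hx => List.mem_of_mem_take hx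
    have hnd : ((w.support.take (k + 1)).map c).Nodup := by
      apply List.Nodup.map_on
      · intro x hx y hy hxy
        exact hclean {z | c z = c x} ⟨x, rfl⟩ x (hsub x hx) y (hsub y hy) rfl hxy.symm
      · exact hw.support_nodup.sublist (List.take_sublist _ _)
    have := clean_length hI hU hRle (t - 1) ∅ (w.support.take (k + 1)) (by
      rw [Finset.card_empty]; omega) hchain hlen.le hnd (fun x _ => Finset.empty_subset _)
    rw [hlen] at this
    have h2 : 2 * (t - 2) + 1 = 2 * t - 3 := by omega
    rw [h2, ← hk] at this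
    omega

end Pool.Agent.Work.MP_d68d6d_co_helper67
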