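import Pool.Agent.Work.MP_d68d6d_co_helper67.Basic

/-!
The supernodes touching a component of unassigned vertices form, with this component, a
model of a complete graph.
-/

open Classical

namespace Pool.Agent.Work.MP_d68d6d_co_helper67

universe u

variable {V : Type u} {G : SimpleGraph V} {k m M : ℕ} {D : Data V}

/-- the vertices assigned to supernode `i`. -/
def piece (D : Data V) (i : ℕ) : Set V := {v | v ∉ D.U ∧ D.s v = i}

theorem piece_reach_T (hI : Inv G k m M D) (i : ℕ) : ∀ n v, v ∈ D.T → D.s v = i →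
    D.dep i v = n → (res G (piece D i)).Reachable v (D.root i) := by
  intro n
  induction n with
  | zero =>
    intro v hv hs hd
    have := hI.i7c v hv (by rw [hs]; exact hd)
    rw [hs] at this
    rw [this]
  | succ n ih =>
    intro v hv hs hd
    obtain ⟨h1, h2, h3, h4⟩ := hI.i7b v hv (by rw [hs, hd]; omega)
    rw [hs] at h2 h4
    rw [hd] at h4
    refine SimpleGraph.Reachable.trans (SimpleGraph.Adj.reachable ?_) (ih (D.par v) h1 h2 (by omega))
    exact ⟨h3, ⟨hI.i7a v hv, hs⟩, ⟨hI.i7a _ h1, h2⟩⟩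

theorem piece_reach (hI : Inv G k m M D) (i : ℕ) : ∀ n v, v ∈ piece D i → D.h v = n →
    (res G (piece D i)).Reachable v (D.root i) := by
  intro n
  induction n using Nat.strong_induction_on with
  | _ n ih =>
    intro v hv hn
    by_cases hT : v ∈ D.T
    · exact piece_reach_T hI i _ v hT hv.2 rfl
    · obtain ⟨h1, h2, h3, h4⟩ := hI.i9 v hv.1 hT
      have hp : D.par v ∈ piece D i := ⟨h1, by rw [h2]; exact hv.2⟩
      refine SimpleGraph.Reachable.trans (SimpleGraph.Adj.reachable ?_)
        (ih (D.h (D.par v)) (by omega) (D.par v) hp rfl)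
      exact ⟨h3, hv, hp⟩

theorem piece_connected (hI : Inv G k m M D) {i : ℕ} (hi : i < D.N) :
    (G.induce (piece D i)).Connected := by
  have hr := hI.i7e i hi
  exact induce_connected (r := D.root i) ⟨hI.i7a _ hr.1, hr.2⟩
    (fun v hv => piece_reach hI i _ v hv rfl)

theorem cmp_reach {U : Set V} {x : V} (hx : x ∈ U) {a b : V} (w : (res G U).Walk a b)
    (ha : a ∈ cmp G U x) : (res G (cmp G U x)).Reachable a b := by
  induction w with
  | nil => exact SimpleGraph.Reachable.refl _
  | cons hadj _ ih =>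
    have hc := cmp_step hx ha hadj.1 hadj.2.2
    exact SimpleGraph.Reachable.trans (SimpleGraph.Adj.reachable ⟨hadj.1, ha, hc⟩) (ih hc)

theorem cmp_connected {U : Set V} {x : V} (hx : x ∈ U) : (G.induce (cmp G U x)).Connected := by
  refine induce_connected (r := x) self_mem_cmp ?_
  intro v hv
  obtain ⟨w⟩ := (hv : (res G U).Reachable x v)
  exact (cmp_reach hx w self_mem_cmp).symm

theorem minor_of_nbs (hI : Inv G k m M D) {x : V} (hx : x ∈ D.U) (S : Finset ℕ)
    (hS : ∀ i ∈ S, nb G D x i) : HasCompleteMinor G (S.card + 1) := by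
  let e : Fin S.card → ℕ := fun j => S.orderEmbOfFin rfl j
  have he : ∀ j, e j ∈ S := fun j => Finset.orderEmbOfFin_mem S rfl j
  have heinj : ∀ i j, i ≠ j → e i ≠ e j := fun i j hij h =>
    hij ((S.orderEmbOfFin rfl).injective h)
  have hadj : ∀ i ∈ S, ∀ j ∈ S, i < j → ∃ a ∈ piece D i, ∃ b ∈ piece D j, G.Adj a b := by
    intro i hi j hj hij
    have hA := nb_mem_A hI hx (hS i hi) (hS j hj) hij
    obtain ⟨a, haT, has, b, hbU, hbs, hab⟩ := hI.i17 j (nb_lt hI (hS j hj)) i hA
    exact ⟨b, ⟨hbU, hbs⟩, a, ⟨hI.i7a a haT, has⟩, hab.symm⟩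
  have hadj' : ∀ i ∈ S, ∀ j ∈ S, i ≠ j → ∃ a ∈ piece D i, ∃ b ∈ piece D j, G.Adj a b := by
    intro i hi j hj hij
    rcases lt_or_gt_of_ne hij with h | h
    · exact hadj i hi j hj h
    · obtain ⟨a, ha, b, hb, hab⟩ := hadj j hj i hi h
      exact ⟨b, hb, a, ha, hab.symm⟩
  have hcadj : ∀ i ∈ S, ∃ a ∈ cmp G D.U x, ∃ b ∈ piece D i, G.Adj a b := by
    intro i hi
    obtain ⟨y, hy, z, hz, h1, h2⟩ := hS i hi
    exact ⟨y, hy, z, ⟨hz, h2⟩, h1⟩
  refine ⟨Fin.cons (cmp G D.U x) (fun j => piece D (e j)), ?_, ?_, ?_⟩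
  · intro i
    refine Fin.cases ?_ (fun j => ?_) i
    · rw [Fin.cons_zero]; exact cmp_connected hx
    · rw [Fin.cons_succ]; exact piece_connected hI (nb_lt hI (hS _ (he j)))
  · intro i j
    refine Fin.cases ?_ (fun i' => ?_) i <;> refine Fin.cases ?_ (fun j' => ?_) j
    · intro h; exact absurd rfl h
    · intro _
      rw [Fin.cons_zero, Fin.cons_succ]
      rw [Set.disjoint_left]
      intro a ha hb
      exact hb.1 (cmp_sub hx ha)
    · intro _
      rw [Fin.cons_zero, Fin.cons_succ]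
      rw [Set.disjoint_left]
      intro a hb ha
      exact hb.1 (cmp_sub hx ha)
    · intro h
      rw [Fin.cons_succ, Fin.cons_succ]
      rw [Set.disjoint_left]
      intro a ha hb
      have hne : i' ≠ j' := fun h' => h (by rw [h'])
      exact heinj i' j' hne (ha.2.symm.trans hb.2)
  · intro i j
    refine Fin.cases ?_ (fun i' => ?_) i <;> refine Fin.cases ?_ (fun j' => ?_) j
    · intro h; exact absurd rfl h
    · intro _
      rw [Fin.cons_zero, Fin.cons_succ]
      exact hcadj _ (he j')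
    · intro _
      rw [Fin.cons_zero, Fin.cons_succ]
      obtain ⟨a, ha, b, hb, hab⟩ := hcadj _ (he i')
      exact ⟨b, hb, a, ha, hab.symm⟩
    · intro h
      rw [Fin.cons_succ, Fin.cons_succ]
      have hne : i' ≠ j' := fun h' => h (by rw [h'])
      exact hadj' _ (he i') _ (he j') (heinj i' j' hne)

theorem minor_mono {t t' : ℕ} (h : t ≤ t') (hG : HasCompleteMinor G t') : HasCompleteMinor G t := by
  obtain ⟨B, h1, h2, h3⟩ := hG
  refine ⟨fun i => B (Fin.castLE h i), fun i => h1 _, fun i j hij => h2 _ _ ?_,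
    fun i j hij => h3 _ _ ?_⟩
  · intro h'; exact hij (Fin.castLE_injective h h')
  · intro h'; exact hij (Fin.castLE_injective h h')

end Pool.Agent.Work.MP_d68d6d_co_helper67
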